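import Mathlib

/-!
# MP_02294b : lifting to a contractible covering
-/

namespace Pool.Agent.H.MP_02294b_ag

/-- The scaling map of the closed disc. -/
theorem exists_scale_Cover :
    ∃ S : unitInterval × Metric.closedBall (0 : ℂ) 1 → Metric.closedBall (0 : ℂ) 1,
      Continuous S ∧ (∀ x, S (1, x) = x) ∧ ∀ x y, S (0, x) = S (0, y) := by
  have h : ∀ q : unitInterval × Metric.closedBall (0 : ℂ) 1,
      ((q.1 : ℝ) : ℂ) * (q.2 : ℂ) ∈ Metric.closedBall (0 : ℂ) 1 := by
    rintro ⟨⟨s, hs0, hs1⟩, ⟨x, hx⟩⟩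
    rw [mem_closedBall_zero_iff] at hx ⊢
    rw [norm_mul, Complex.norm_real, Real.norm_of_nonneg hs0]
    exact mul_le_one₀ hs1 (norm_nonneg _) hx
  refine ⟨fun q => ⟨_, h q⟩, ?_, fun x => ?_, fun x y => ?_⟩
  · refine Continuous.subtype_mk ?_ _
    fun_prop
  · apply Subtype.ext
    simp
  · apply Subtype.ext
    simp

/-- The boundary circle is preconnected. -/
theorem preconnected_circle_Cover :
    IsPreconnected {x : Metric.closedBall (0 : ℂ) 1 | ‖(x : ℂ)‖ = 1} := by
  have h1 : IsPreconnected (Metric.sphere (0 : ℂ) 1) :=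
    isPreconnected_sphere (by rw [Complex.rank_real_complex]; norm_num) 0 1
  have h2 : PreconnectedSpace (Metric.sphere (0 : ℂ) 1) :=
    isPreconnected_iff_preconnectedSpace.mp h1
  let c : Metric.sphere (0 : ℂ) 1 → Metric.closedBall (0 : ℂ) 1 := fun x =>
    ⟨x.1, Metric.sphere_subset_closedBall x.2⟩
  have hc : Continuous c := Continuous.subtype_mk continuous_subtype_val _
  have h3 := isPreconnected_range hc
  convert h3 using 1
  ext x
  constructor
  · intro hx
    exact ⟨⟨x.1, by rw [mem_sphere_zero_iff_norm]; exact hx⟩, rfl⟩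
  · rintro ⟨y, rfl⟩
    exact mem_sphere_zero_iff_norm.mp y.2

/-- A disc which is constant on the boundary circle, in a space `X` with a contractible covering
`E`: lift it to `g` (homotopy lifting of `(s, x) ↦ V (s x)`), `g` is constant on the circle (the
fibres are discrete, the circle is connected), contract `E` and project. -/
theorem cover {X E Z : Type*} [TopologicalSpace X] [TopologicalSpace E] [TopologicalSpace Z]
    (p : E → X) (hp : IsCoveringMap p) (hE : ContractibleSpace E) (hs : Function.Surjective p)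
    (V : Metric.closedBall (0 : ℂ) 1 → X) (hV : Continuous V)
    (hV1 : ∀ x y : Metric.closedBall (0 : ℂ) 1, ‖(x : ℂ)‖ = 1 → ‖(y : ℂ)‖ = 1 → V x = V y)
    (Φ : X → Z) (hΦ : Continuous Φ) :
    ∃ (M : unitInterval × Metric.closedBall (0 : ℂ) 1 → Z) (x0 : X), Continuous M ∧
      (∀ z, ∃ x, M z = Φ x) ∧ (∀ x, M (1, x) = Φ (V x)) ∧ (∀ x, M (0, x) = Φ x0) ∧
      ∀ x y : Metric.closedBall (0 : ℂ) 1, ‖(x : ℂ)‖ = 1 → ‖(y : ℂ)‖ = 1 →
        ∀ s, M (s, x) = M (s, y) := by
  obtain ⟨S, hSc, hS1, hS0⟩ := exists_scale_Cover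
  let o : Metric.closedBall (0 : ℂ) 1 := ⟨0, by simp⟩
  obtain ⟨e0, he0⟩ := hs (V (S (0, o)))
  let H : C(unitInterval × Metric.closedBall (0 : ℂ) 1, X) := ⟨fun q => V (S q), hV.comp hSc⟩
  have H0 : ∀ a, H (0, a) = p (ContinuousMap.const (Metric.closedBall (0 : ℂ) 1) e0 a) := by
    intro a
    change V (S (0, a)) = p e0
    rw [he0, hS0 a o]
  let G := hp.liftHomotopy H (ContinuousMap.const _ e0) H0
  have hG : ∀ q, p (G q) = V (S q) := fun q =>
    congrFun (hp.liftHomotopy_lifts H (ContinuousMap.const _ e0) H0) q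
  let g : Metric.closedBall (0 : ℂ) 1 → E := fun x => G (1, x)
  have hgc : Continuous g := G.continuous.comp (by fun_prop)
  have hpg : ∀ x, p (g x) = V x := fun x => by
    change p (G (1, x)) = V x
    rw [hG, hS1]
  have hg1 : ∀ x y : Metric.closedBall (0 : ℂ) 1, ‖(x : ℂ)‖ = 1 → ‖(y : ℂ)‖ = 1 → g x = g y := by
    intro x y hx hy
    refine hp.constOn_of_comp preconnected_circle_Cover hgc.continuousOn ?_ hx hy
    intro a ha b hb
    rw [hpg, hpg]
    exact hV1 a b ha hb
  obtain ⟨y0, ⟨F⟩⟩ := id_nullhomotopic E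
  refine ⟨fun q => Φ (p (F (unitInterval.symm q.1, g q.2))), p y0, ?_, fun z => ⟨_, rfl⟩,
    fun x => ?_, fun x => ?_, fun x y hx hy s => ?_⟩
  · exact hΦ.comp (hp.continuous.comp (F.continuous.comp (by fun_prop)))
  · change Φ (p (F (unitInterval.symm 1, g x))) = Φ (V x)
    rw [unitInterval.symm_one, F.apply_zero]
    exact congrArg Φ (hpg x)
  · change Φ (p (F (unitInterval.symm 0, g x))) = Φ (p y0)
    rw [unitInterval.symm_zero, F.apply_one]
    rfl
  · change Φ (p (F (unitInterval.symm s, g x))) = Φ (p (F (unitInterval.symm s, g y)))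
    rw [hg1 x y hx hy]

end Pool.Agent.H.MP_02294b_ag
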