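import Mathlib

/-!
# MP_02294b : Hirzebruch-Kummer coverings, definitions

`l i` are the linear forms of the lines `L_i` of a configuration in the projective plane.
-/

open scoped LinearAlgebra.Projectivization

namespace Pool.Agent.H.MP_02294b_ag

/-- The complex projective space of `S → ℂ`. -/
abbrev PS (S : Type) : Type := ℙ ℂ (S → ℂ)

/-- The quotient topology on the complex projective space of `S → ℂ`. -/
noncomputable instance projTop (S : Type) : TopologicalSpace (PS S) :=
  TopologicalSpace.coinduced
    (fun v : {v : S → ℂ // v ≠ 0} => Projectivization.mk ℂ v.1 v.2) inferInstance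

/-- Homogeneous coordinates of a point of the projective space (of a fixed representative). -/
noncomputable def hc {S : Type} (p : PS S) : S → ℂ := p.rep

/-- Linear forms in three variables. -/
abbrev Form := (Fin 3 → ℂ) →ₗ[ℂ] ℂ

/-- The points of multiplicity at least three of the configuration; such a point is given by the
set `S` of (indices of) the lines through it. -/
def MultPt {ι : Type} (l : ι → Form) : Type :=
  {S : Finset ι // 3 ≤ S.card ∧ ∃ x : Fin 3 → ℂ, x ≠ 0 ∧ ∀ i, i ∈ S ↔ l i x = 0}

/-- The `n`-th powers of the homogeneous coordinates of `p` are the values `l_i(x)` of the forms at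
some `x`. For a configuration `l`, these points `p` form the Kummer covering `X_C(n)`. -/
def Kum {S : Type} (l : S → Form) (n : ℕ) (p : PS S) : Prop :=
  ∃ x : Fin 3 → ℂ, ∀ i, hc p i ^ n = l i x

/-- The coordinates of `p` with index in `S` are proportional to those of `q` (all of them may be
zero). -/
def Prop1 {ι : Type} (S : Finset ι) (p : PS ι) (q : PS {i : ι // i ∈ S}) : Prop :=
  ∀ i j : {i : ι // i ∈ S}, hc p i.1 * hc q j = hc p j.1 * hc q i

/-- The product of projective spaces which contains the Hirzebruch-Kummer covering. -/
abbrev Amb {ι : Type} (l : ι → Form) : Type :=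
  PS ι × ((S : MultPt l) → PS {i : ι // i ∈ S.1})

/-- The conditions on the point `q` over the multiple point `S`: it is in the Kummer set of the
forms with index in `S`, and it is proportional to the coordinates of `p` with index in `S`. -/
def Over {ι : Type} (l : ι → Form) (n : ℕ) (p : PS ι) (S : Finset ι) (q : PS {i : ι // i ∈ S}) :
    Prop := Kum (fun i : {i : ι // i ∈ S} => l i.1) n q ∧ Prop1 S p q

/-- The conditions on a point `(p, (z_S))` of the product, see `HK`. -/
def InHK {ι : Type} (l : ι → Form) (n : ℕ) (w : Amb l) : Prop :=
  Kum l n w.1 ∧ ∀ S : MultPt l, Over l n w.1 S.1 (w.2 S)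

/-- The Hirzebruch-Kummer covering `HK_C(n)`, as a subspace of a product of projective spaces. The
Kummer covering `X_C(n)` is the set of the points `y = (y_i)` of the projective space of `ι → ℂ`
such that `(y_i ^ n)` is the value `(l_i(x))` of the forms at some `x`. For each point of
multiplicity at least three, with set of lines `S`, one adds a point `z_S` of the projective space
of `S → ℂ`, with `(z_i ^ n) = (l_i(x))` for some `x`, which is equal to the class of
`(y_i)`, `i ∈ S`, if the latter vector is not zero (blowing up of the points of `X_C(n)` over the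
multiple points). -/
def HK {ι : Type} (l : ι → Form) (n : ℕ) : Type :=
  {w : Amb l // InHK l n w}

noncomputable instance {ι : Type} (l : ι → Form) (n : ℕ) : TopologicalSpace (HK l n) :=
  instTopologicalSpaceSubtype

/-- The configuration contains a simple triangle: three of the lines, `l (t 0)`, `l (t 1)`,
`l (t 2)`, meet in the three vertices `e 2`, `e 1`, `e 0`, and the other lines avoid the closed
triangle which consists of the points `s 0 • e 0 + s 1 • e 1 + s 2 • e 2`, `s a ≥ 0`. -/
structure SimpleTriangle {ι : Type} (l : ι → Form) (t : Fin 3 → ι) (e : Fin 3 → (Fin 3 → ℂ)) :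
    Prop where
  inj : Function.Injective t
  basis : LinearIndependent ℂ e
  vertex : ∀ a b, a ≠ b → l (t a) (e b) = 0
  avoid : ∀ j, j ∉ Set.range t → ∀ s : Fin 3 → ℝ, (∀ a, 0 ≤ s a) → s ≠ 0 →
    l j (∑ a, (s a : ℂ) • e a) ≠ 0

end Pool.Agent.H.MP_02294b_ag
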