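import Mathlib

/-!
# MP_02294b : logarithms on a disc
-/

namespace Pool.Agent.H.MP_02294b_ag

/-- Logarithm on the open unit disc: the disc is simply connected and locally path connected, lift
`f` along the covering `exp` (`Complex.isCoveringMapOn_exp`). -/
theorem log_ball (f : ℂ → ℂ) (hf : ContinuousOn f (Metric.ball 0 1))
    (h0 : ∀ x ∈ Metric.ball (0 : ℂ) 1, f x ≠ 0) :
    ∃ L : ℂ → ℂ, ContinuousOn L (Metric.ball 0 1) ∧
      ∀ x ∈ Metric.ball (0 : ℂ) 1, Complex.exp (L x) = f x := by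
  have hz : (0 : ℂ) ∈ Metric.ball (0 : ℂ) 1 := Metric.mem_ball_self one_pos
  have : ContractibleSpace (Metric.ball (0 : ℂ) 1) :=
    (convex_ball (0 : ℂ) 1).contractibleSpace ⟨0, hz⟩
  have : LocallyPathConnectedSpace (Metric.ball (0 : ℂ) 1) :=
    Metric.isOpen_ball.locallyPathConnectedSpace
  have hF : Continuous fun x : Metric.ball (0 : ℂ) 1 => f x :=
    continuousOn_iff_continuous_domRestrict.1 hf
  obtain ⟨G, ⟨-, hG⟩, -⟩ := Complex.isCoveringMapOn_exp.existsUnique_continuousMap_lifts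
    (⟨fun x : Metric.ball (0 : ℂ) 1 => f x, hF⟩ : C(Metric.ball (0 : ℂ) 1, ℂ))
    (a₀ := ⟨0, hz⟩) (e₀ := Complex.log (f 0)) (Complex.exp_log (h0 0 hz))
    (fun a => h0 a a.2)
  classical
  refine ⟨fun x => if h : x ∈ Metric.ball (0 : ℂ) 1 then G ⟨x, h⟩ else 0, ?_, fun x hx => ?_⟩
  · rw [continuousOn_iff_continuous_domRestrict]
    refine G.continuous.congr fun x => ?_
    simp only [Set.domRestrict_apply]
    rw [dif_pos x.2]
  · simp only
    rw [dif_pos hx]
    exact congrFun hG ⟨x, hx⟩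

end Pool.Agent.H.MP_02294b_ag
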