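import Pool.Agent.H.MP_02294b_ag.Rho

/-!
# MP_02294b : projections and the two vectors
-/

open Complex Matrix ComplexConjugate

namespace Pool.Agent.H.MP_02294b_ag

/-- The matrix of the orthogonal projection onto the line of `u`. -/
noncomputable def proj1 (u : Fin 2 → ℂ) : Fin 2 → Fin 2 → ℂ :=
  fun i j => u i * conj (u j) / ((‖u 0‖ ^ 2 + ‖u 1‖ ^ 2 : ℝ) : ℂ)

theorem Proj.norm_sq (z : ℂ) : conj z * z = ((‖z‖ ^ 2 : ℝ) : ℂ) := by
  rw [mul_comm, Complex.mul_conj, Complex.normSq_eq_norm_sq]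

theorem Proj.N_eq (u : Fin 2 → ℂ) :
    ((‖u 0‖ ^ 2 + ‖u 1‖ ^ 2 : ℝ) : ℂ) = conj (u 0) * u 0 + conj (u 1) * u 1 := by
  rw [Proj.norm_sq, Proj.norm_sq, ofReal_add]

theorem Proj.N_ne (u : Fin 2 → ℂ) (hu : u ≠ 0) : ((‖u 0‖ ^ 2 + ‖u 1‖ ^ 2 : ℝ) : ℂ) ≠ 0 := by
  intro h
  have h1 : ‖u 0‖ ^ 2 + ‖u 1‖ ^ 2 = 0 := by exact_mod_cast h
  have h2 : ‖u 0‖ = 0 := by nlinarith [sq_nonneg ‖u 0‖, sq_nonneg ‖u 1‖, norm_nonneg (u 0)]
  have h3 : ‖u 1‖ = 0 := by nlinarith [sq_nonneg ‖u 0‖, sq_nonneg ‖u 1‖, norm_nonneg (u 1)]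
  refine hu (funext fun i => ?_)
  fin_cases i
  · exact norm_eq_zero.mp h2
  · exact norm_eq_zero.mp h3

theorem proj1_smul (c : ℂ) (hc : c ≠ 0) (u : Fin 2 → ℂ) : proj1 (c • u) = proj1 u := by
  funext i j
  have hc2 : conj c * c ≠ 0 := mul_ne_zero ((map_ne_zero _).mpr hc) hc
  have e1 : ((‖(c • u) 0‖ ^ 2 + ‖(c • u) 1‖ ^ 2 : ℝ) : ℂ) =
      (conj c * c) * ((‖u 0‖ ^ 2 + ‖u 1‖ ^ 2 : ℝ) : ℂ) := by
    rw [Proj.N_eq, Proj.N_eq]
    simp only [Pi.smul_apply, smul_eq_mul, map_mul]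
    ring
  have e2 : (c • u) i * conj ((c • u) j) = (conj c * c) * (u i * conj (u j)) := by
    simp only [Pi.smul_apply, smul_eq_mul, map_mul]
    ring
  unfold proj1
  rw [e1, e2, mul_div_mul_left _ _ hc2]

theorem Proj.proj1_zero : proj1 0 = 0 := by
  funext i j
  simp [proj1]

theorem proj1_idem (u : Fin 2 → ℂ) :
    Matrix.of (proj1 u) * Matrix.of (proj1 u) = Matrix.of (proj1 u) := by
  by_cases hu : u = 0
  · rw [hu, Proj.proj1_zero]
    ext i j
    simp [Matrix.mul_apply]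
  have hN := Proj.N_ne u hu
  have e := Proj.N_eq u
  ext i j
  rw [Matrix.mul_apply, Fin.sum_univ_two]
  simp only [Matrix.of_apply, proj1]
  rw [div_mul_div_comm, div_mul_div_comm, ← add_div, div_eq_div_iff (mul_ne_zero hN hN) hN]
  generalize hM : ((‖u 0‖ ^ 2 + ‖u 1‖ ^ 2 : ℝ) : ℂ) = M at *
  rw [show M * M = (conj (u 0) * u 0 + conj (u 1) * u 1) * M by rw [← e]]
  ring

theorem proj1_mulVec_self (u : Fin 2 → ℂ) : Matrix.of (proj1 u) *ᵥ u = u := by
  by_cases hu : u = 0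
  · rw [hu, Matrix.mulVec_zero]
  have hN := Proj.N_ne u hu
  have e := Proj.N_eq u
  funext i
  simp only [Matrix.mulVec, dotProduct, Fin.sum_univ_two, Matrix.of_apply, proj1]
  rw [div_mul_eq_mul_div, div_mul_eq_mul_div, ← add_div, div_eq_iff hN]
  generalize hM : ((‖u 0‖ ^ 2 + ‖u 1‖ ^ 2 : ℝ) : ℂ) = M at *
  rw [e]
  ring

theorem proj1_mulVec_eq (u w : Fin 2 → ℂ) (h : Matrix.of (proj1 u) *ᵥ w = w) :
    ∃ c : ℂ, w = c • u := by
  refine ⟨(conj (u 0) * w 0 + conj (u 1) * w 1) / ((‖u 0‖ ^ 2 + ‖u 1‖ ^ 2 : ℝ) : ℂ), ?_⟩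
  conv_lhs => rw [← h]
  funext i
  simp only [Matrix.mulVec, dotProduct, Fin.sum_univ_two, Matrix.of_apply, proj1, Pi.smul_apply,
    smul_eq_mul]
  ring

theorem proj1_cont : ContinuousOn proj1 {u | u ≠ 0} := by
  refine continuousOn_pi.mpr fun i => continuousOn_pi.mpr fun j => ?_
  refine ContinuousOn.div ?_ ?_ fun u hu => Proj.N_ne u hu
  · exact (((continuous_apply i).mul
      (Complex.continuous_conj.comp (continuous_apply j)))).continuousOn
  · exact (Complex.continuous_ofReal.comp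
      ((((continuous_apply (0 : Fin 2)).norm).pow 2).add
        (((continuous_apply (1 : Fin 2)).norm).pow 2))).continuousOn

/-- `(A, B)`, `A = X_1 - α X_2`, `B = X_4 - X_3`. -/
noncomputable def vA (n : ℕ) (X : Fin 4 → ℂ) : Fin 2 → ℂ := ![X 0 - alp n * X 1, X 3 - X 2]

/-- `(B', A')`, `B' = ∑ X_4^k X_3^(n-1-k)`, `A' = ∑ X_1^k (α X_2)^(n-1-k)`. -/
noncomputable def vB (n : ℕ) (X : Fin 4 → ℂ) : Fin 2 → ℂ :=
  ![∑ k ∈ Finset.range n, X 3 ^ k * X 2 ^ (n - 1 - k),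
    ∑ k ∈ Finset.range n, X 0 ^ k * (alp n * X 1) ^ (n - 1 - k)]

open Classical in
/-- The map to the projective line: the line of `(A, B)` or of `(B', A')`. -/
noncomputable def phi (n : ℕ) (X : Fin 4 → ℂ) : Fin 2 → Fin 2 → ℂ :=
  if vA n X ≠ 0 then proj1 (vA n X) else proj1 (vB n X)

/-- The four coordinates. -/
noncomputable def Xc {ι : Type} (t : Fin 3 → ι) (j : ι) (β : Fin 3 → ℂ) (y : ι → ℂ) : Fin 4 → ℂ :=
  ![β 0 * y (t 0), β 1 * y (t 1), β 2 * y (t 2), y j]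

theorem Proj.alp_pow (n : ℕ) (hn : 1 ≤ n) : alp n ^ n = -1 := by
  have hn' : (n : ℂ) ≠ 0 := by exact_mod_cast (by omega : n ≠ 0)
  rw [alp, ← exp_nat_mul, mul_neg, mul_div_cancel₀ _ hn', exp_neg, exp_pi_mul_I]
  norm_num

theorem Proj.alp_ne (n : ℕ) : alp n ≠ 0 := exp_ne_zero _

/-- If both vectors are not zero, then `phi` is also the line of `(B', A')`: `A A' = X_1^n + X_2^n`
(because `(α X_2)^n = - X_2^n`), `B B' = X_4^n - X_3^n` are equal (`Commute.geom_sum₂_mul` or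
`Commute.mul_geom_sum₂`). -/
theorem phi_eq (n : ℕ) (hn : 1 ≤ n) (X : Fin 4 → ℂ)
    (hX : X 0 ^ n + X 1 ^ n + X 2 ^ n = X 3 ^ n) (hB : vB n X ≠ 0) : phi n X = proj1 (vB n X) := by
  unfold phi
  by_cases hA : vA n X ≠ 0
  swap
  · rw [if_neg hA]
  rw [if_pos hA]
  set A := X 0 - alp n * X 1 with hAd
  set B := X 3 - X 2 with hBd
  set B' := ∑ k ∈ Finset.range n, X 3 ^ k * X 2 ^ (n - 1 - k) with hB'
  set A' := ∑ k ∈ Finset.range n, X 0 ^ k * (alp n * X 1) ^ (n - 1 - k) with hA'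
  have e1 : A' * A = X 0 ^ n - (alp n * X 1) ^ n := (Commute.all _ _).geom_sum₂_mul n
  have e2 : B' * B = X 3 ^ n - X 2 ^ n := (Commute.all _ _).geom_sum₂_mul n
  have e3 : A' * A = B' * B := by
    rw [e1, e2, mul_pow, Proj.alp_pow n hn]
    linear_combination hX
  have hvA : vA n X = ![A, B] := rfl
  have hvB : vB n X = ![B', A'] := rfl
  have key : ∃ c : ℂ, vA n X = c • vB n X := by
    by_cases h1 : B' = 0
    · have h2 : A' ≠ 0 := by
        intro h2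
        refine hB ?_
        rw [hvB, h1, h2]
        funext i
        fin_cases i <;> rfl
      refine ⟨B / A', ?_⟩
      rw [hvA, hvB]
      funext i
      fin_cases i
      · change A = B / A' * B'
        rw [div_mul_eq_mul_div, eq_div_iff h2]
        linear_combination e3
      · change B = B / A' * A'
        rw [div_mul_cancel₀ _ h2]
    · refine ⟨A / B', ?_⟩
      rw [hvA, hvB]
      funext i
      fin_cases i
      · change A = A / B' * B'
        rw [div_mul_cancel₀ _ h1]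
      · change B = A / B' * A'
        rw [div_mul_eq_mul_div, eq_div_iff h1]
        linear_combination -e3
  obtain ⟨c, hc⟩ := key
  have hc0 : c ≠ 0 := by
    rintro rfl
    exact hA (by rw [hc, zero_smul])
  rw [hc, proj1_smul c hc0]

/-- Not both vectors vanish, unless `X = 0`. -/
theorem vA_or_vB (n : ℕ) (hn : 2 ≤ n) (X : Fin 4 → ℂ)
    (hA : vA n X = 0) (hB : vB n X = 0) : X = 0 := by
  have a0 : X 0 - alp n * X 1 = 0 := congrFun hA 0
  have a1 : X 3 - X 2 = 0 := congrFun hA 1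
  have b0 : ∑ k ∈ Finset.range n, X 3 ^ k * X 2 ^ (n - 1 - k) = 0 := congrFun hB 0
  have b1 : ∑ k ∈ Finset.range n, X 0 ^ k * (alp n * X 1) ^ (n - 1 - k) = 0 := congrFun hB 1
  have hn0 : (n : ℂ) ≠ 0 := by exact_mod_cast (by omega : n ≠ 0)
  have key : ∀ z : ℂ, ∑ k ∈ Finset.range n, z ^ k * z ^ (n - 1 - k) = 0 → z = 0 := by
    intro z hz
    have h1 : ∑ k ∈ Finset.range n, z ^ k * z ^ (n - 1 - k) = n * z ^ (n - 1) := by
      rw [Finset.sum_congr rfl (g := fun _ => z ^ (n - 1)) fun k hk => by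
        rw [← pow_add]
        congr 1
        have := Finset.mem_range.mp hk
        omega]
      rw [Finset.sum_const, Finset.card_range, nsmul_eq_mul]
    rw [h1] at hz
    exact pow_eq_zero_iff (by omega) |>.mp ((mul_eq_zero.mp hz).resolve_left hn0)
  have h2 : X 3 = X 2 := sub_eq_zero.mp a1
  have h0 : X 0 = alp n * X 1 := sub_eq_zero.mp a0
  rw [h2] at b0
  rw [← h0] at b1
  have c2 := key _ b0
  have c0 := key _ b1
  have c1 : X 1 = 0 := by
    rw [c0] at h0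
    exact (mul_eq_zero.mp h0.symm).resolve_left (Proj.alp_ne n)
  funext i
  fin_cases i
  · exact c0
  · exact c1
  · exact c2
  · exact h2.trans c2

end Pool.Agent.H.MP_02294b_ag
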