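import Pool.Agent.H.MP_02294b_ag.Def
import Pool.Agent.H.MP_02294b_ag.Proj

/-!
# MP_02294b : the map to the projective line
-/

open Complex Matrix
open scoped LinearAlgebra.Projectivization

namespace Pool.Agent.H.MP_02294b_ag

section Phi_aux

variable {ι : Type}

theorem Xc_smul_Phi (t : Fin 3 → ι) (j : ι) (β : Fin 3 → ℂ) (c : ℂ) (y : ι → ℂ) :
    Xc t j β (c • y) = c • Xc t j β y := by
  funext k
  fin_cases k <;> simp [Xc] <;> ring

theorem vA_smul_Phi (n : ℕ) (c : ℂ) (X : Fin 4 → ℂ) : vA n (c • X) = c • vA n X := by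
  funext k
  fin_cases k <;> simp [vA] <;> ring

theorem vB_smul_Phi (n : ℕ) (c : ℂ) (X : Fin 4 → ℂ) : vB n (c • X) = c ^ (n - 1) • vB n X := by
  have h : ∀ k ∈ Finset.range n, c ^ (n - 1) = c ^ k * c ^ (n - 1 - k) := by
    intro k hk
    rw [← pow_add]
    congr 1
    have := Finset.mem_range.1 hk
    omega
  funext k
  fin_cases k
  · change ∑ k ∈ Finset.range n, (c * X 3) ^ k * (c * X 2) ^ (n - 1 - k) =
      c ^ (n - 1) * ∑ k ∈ Finset.range n, X 3 ^ k * X 2 ^ (n - 1 - k)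
    rw [Finset.mul_sum]
    refine Finset.sum_congr rfl fun k hk => ?_
    rw [h k hk, mul_pow, mul_pow]
    ring
  · change ∑ k ∈ Finset.range n, (c * X 0) ^ k * (alp n * (c * X 1)) ^ (n - 1 - k) =
      c ^ (n - 1) * ∑ k ∈ Finset.range n, X 0 ^ k * (alp n * X 1) ^ (n - 1 - k)
    rw [Finset.mul_sum]
    refine Finset.sum_congr rfl fun k hk => ?_
    rw [h k hk, mul_pow, mul_left_comm, mul_pow c]
    ring

theorem phi_smul_Phi (n : ℕ) (c : ℂ) (hc : c ≠ 0) (X : Fin 4 → ℂ) :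
    phi n (c • X) = phi n X := by
  unfold phi
  rw [vA_smul_Phi, vB_smul_Phi, proj1_smul c hc, proj1_smul _ (pow_ne_zero _ hc)]
  by_cases h : vA n X = 0
  · simp [h]
  · have h' : c • vA n X ≠ 0 := smul_ne_zero hc h
    rw [if_pos h', if_pos h]

theorem phi_pos_Phi (n : ℕ) (X : Fin 4 → ℂ) (h : vA n X ≠ 0) : phi n X = proj1 (vA n X) := by
  unfold phi
  rw [if_pos h]

theorem phi_neg_Phi (n : ℕ) (X : Fin 4 → ℂ) (h : vA n X = 0) : phi n X = proj1 (vB n X) := by
  unfold phi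
  rw [if_neg (not_not.2 h)]

theorem phi_idem_Phi (n : ℕ) (X : Fin 4 → ℂ) :
    Matrix.of (phi n X) * Matrix.of (phi n X) = Matrix.of (phi n X) := by
  by_cases h : vA n X = 0
  · rw [phi_neg_Phi n X h]
    exact proj1_idem _
  · rw [phi_pos_Phi n X h]
    exact proj1_idem _

/-- the quotient map -/
noncomputable def qm (ι : Type) : {v : ι → ℂ // v ≠ 0} → ℙ ℂ (ι → ℂ) :=
  fun v => Projectivization.mk ℂ v.1 v.2

theorem isQuotientMap_qm (ι : Type) : Topology.IsQuotientMap (qm ι) where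
  surjective p := ⟨⟨p.rep, p.rep_nonzero⟩, p.mk_rep⟩
  eq_coinduced := rfl

/-- homogeneous continuous functions -/
structure Hom_Phi (G : (ι → ℂ) → Fin 2 → ℂ) : Prop where
  cont : Continuous G
  sm : ∀ c : ℂ, c ≠ 0 → ∀ y, ∃ c' : ℂ, c' ≠ 0 ∧ G (c • y) = c' • G y

theorem Hom_Phi.rep {G : (ι → ℂ) → Fin 2 → ℂ} (hG : Hom_Phi G) (v : {v : ι → ℂ // v ≠ 0}) :
    ∃ c' : ℂ, c' ≠ 0 ∧ G (qm ι v).rep = c' • G v.1 := by
  obtain ⟨a, ha⟩ := Projectivization.exists_smul_eq_mk_rep ℂ v.1 v.2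
  have h : (qm ι v).rep = (a : ℂ) • v.1 := ha.symm
  rw [h]
  exact hG.sm _ a.ne_zero _

theorem Hom_Phi.ne_iff {G : (ι → ℂ) → Fin 2 → ℂ} (hG : Hom_Phi G) (v : {v : ι → ℂ // v ≠ 0}) :
    G (qm ι v).rep ≠ 0 ↔ G v.1 ≠ 0 := by
  obtain ⟨c, hc, h⟩ := hG.rep v
  rw [h]
  simp [hc]

theorem Hom_Phi.isOpen {G : (ι → ℂ) → Fin 2 → ℂ} (hG : Hom_Phi G) :
    IsOpen {p : ℙ ℂ (ι → ℂ) | G p.rep ≠ 0} := by
  rw [← (isQuotientMap_qm ι).isOpen_preimage]
  have h : qm ι ⁻¹' {p | G p.rep ≠ 0} = {v : {v : ι → ℂ // v ≠ 0} | G v.1 ≠ 0} := by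
    ext v
    exact hG.ne_iff v
  rw [h]
  exact isOpen_ne.preimage (hG.cont.comp continuous_subtype_val)

theorem Hom_Phi.contOn {G : (ι → ℂ) → Fin 2 → ℂ} (hG : Hom_Phi G) :
    ContinuousOn (fun p : ℙ ℂ (ι → ℂ) => proj1 (G p.rep)) {p | G p.rep ≠ 0} := by
  rw [(isQuotientMap_qm ι).continuousOn_isOpen_iff hG.isOpen]
  have h : (fun p : ℙ ℂ (ι → ℂ) => proj1 (G p.rep)) ∘ qm ι =
      fun v : {v : ι → ℂ // v ≠ 0} => proj1 (G v.1) := by
    funext v
    obtain ⟨c, hc, h⟩ := hG.rep v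
    change proj1 (G (qm ι v).rep) = _
    rw [h, proj1_smul c hc]
  rw [h]
  refine proj1_cont.comp (hG.cont.comp continuous_subtype_val).continuousOn ?_
  intro v hv
  exact (hG.ne_iff v).1 hv

theorem Xc_cont_Phi (t : Fin 3 → ι) (j : ι) (β : Fin 3 → ℂ) : Continuous (Xc t j β) := by
  refine continuous_pi fun k => ?_
  fin_cases k
  · change Continuous fun y : ι → ℂ => β 0 * y (t 0)
    fun_prop
  · change Continuous fun y : ι → ℂ => β 1 * y (t 1)
    fun_prop
  · change Continuous fun y : ι → ℂ => β 2 * y (t 2)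
    fun_prop
  · change Continuous fun y : ι → ℂ => y j
    fun_prop

theorem vA_cont_Phi (n : ℕ) : Continuous (vA n) := by
  refine continuous_pi fun k => ?_
  fin_cases k
  · change Continuous fun X : Fin 4 → ℂ => X 0 - alp n * X 1
    fun_prop
  · change Continuous fun X : Fin 4 → ℂ => X 3 - X 2
    fun_prop

theorem vB_cont_Phi (n : ℕ) : Continuous (vB n) := by
  refine continuous_pi fun k => ?_
  fin_cases k
  · change Continuous fun X : Fin 4 → ℂ => ∑ k ∈ Finset.range n, X 3 ^ k * X 2 ^ (n - 1 - k)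
    fun_prop
  · change Continuous fun X : Fin 4 → ℂ =>
      ∑ k ∈ Finset.range n, X 0 ^ k * (alp n * X 1) ^ (n - 1 - k)
    fun_prop

theorem homA_Phi (n : ℕ) (t : Fin 3 → ι) (j : ι) (β : Fin 3 → ℂ) :
    Hom_Phi fun y : ι → ℂ => vA n (Xc t j β y) where
  cont := (vA_cont_Phi n).comp (Xc_cont_Phi t j β)
  sm c hc y := ⟨c, hc, by rw [Xc_smul_Phi, vA_smul_Phi]⟩

theorem homB_Phi (n : ℕ) (t : Fin 3 → ι) (j : ι) (β : Fin 3 → ℂ) :
    Hom_Phi fun y : ι → ℂ => vB n (Xc t j β y) where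
  cont := (vB_cont_Phi n).comp (Xc_cont_Phi t j β)
  sm c hc y := ⟨c ^ (n - 1), pow_ne_zero _ hc, by rw [Xc_smul_Phi, vB_smul_Phi]⟩

theorem proj1_ne_zero_Phi (u : Fin 2 → ℂ) (hu : u ≠ 0) : proj1 u ≠ 0 := by
  intro h
  apply hu
  rw [← proj1_mulVec_self u, h]
  ext i
  simp [Matrix.mulVec, dotProduct]

theorem phi_ne_zero_Phi (n : ℕ) (hn : 2 ≤ n) (X : Fin 4 → ℂ) (hX : X ≠ 0) : phi n X ≠ 0 := by
  by_cases h : vA n X = 0
  · rw [phi_neg_Phi n X h]
    exact proj1_ne_zero_Phi _ fun hB => hX (vA_or_vB n hn _ h hB)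
  · rw [phi_pos_Phi n X h]
    exact proj1_ne_zero_Phi _ h

end Phi_aux

/-- The point `x` in the basis `e`, the equation of `X`, and `X ≠ 0`. -/
theorem point_Phi {ι : Type} (l : ι → Form) (n : ℕ) (hn : 2 ≤ n)
    (hl0 : ∀ i, l i ≠ 0) (t : Fin 3 → ι) (e : Fin 3 → (Fin 3 → ℂ)) (hT : SimpleTriangle l t e)
    (j : ι) (β : Fin 3 → ℂ) (hβ : ∀ k, β k ≠ 0)
    (hβn : ∀ k, β k ^ n = l j (e k) / l (t k) (e k)) (y : ι → ℂ) (hy : y ≠ 0)
    (hx : ∃ x : Fin 3 → ℂ, ∀ i, y i ^ n = l i x) :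
    Xc t j β y 0 ^ n + Xc t j β y 1 ^ n + Xc t j β y 2 ^ n = Xc t j β y 3 ^ n ∧
      Xc t j β y ≠ 0 := by
  obtain ⟨x, hx⟩ := hx
  have hcard : Fintype.card (Fin 3) = Module.finrank ℂ (Fin 3 → ℂ) := by simp
  let b := basisOfLinearIndependentOfCardEqFinrank hT.basis hcard
  have hb : ∀ k, b k = e k := fun k => by
    simp [b]
  have hsum : ∀ i, l i x = ∑ k, b.repr x k * l i (e k) := by
    intro i
    have h1 : x = ∑ k, b.repr x k • e k := by
      conv_lhs => rw [← b.sum_repr x]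
      exact Finset.sum_congr rfl fun k _ => by rw [hb]
    conv_lhs => rw [h1]
    rw [map_sum]
    exact Finset.sum_congr rfl fun k _ => by rw [map_smul, smul_eq_mul]
  have hk : ∀ k, l (t k) x = b.repr x k * l (t k) (e k) := by
    intro k
    rw [hsum, Finset.sum_eq_single k]
    · intro a _ ha
      rw [hT.vertex k a (Ne.symm ha), mul_zero]
    · intro h
      exact absurd (Finset.mem_univ k) h
  have hne : ∀ k, l (t k) (e k) ≠ 0 := by
    intro k h0
    apply hl0 (t k)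
    apply b.ext
    intro a
    rw [hb, LinearMap.zero_apply]
    by_cases hak : a = k
    · rw [hak]; exact h0
    · exact hT.vertex k a (Ne.symm hak)
  have hX : ∀ k, (β k * y (t k)) ^ n = b.repr x k * l j (e k) := by
    intro k
    rw [mul_pow, hβn, hx, hk]
    have := hne k
    field_simp
  constructor
  · change (β 0 * y (t 0)) ^ n + (β 1 * y (t 1)) ^ n + (β 2 * y (t 2)) ^ n = y j ^ n
    rw [hX, hX, hX, hx, hsum, Fin.sum_univ_three]
  · intro h0
    have h1 : ∀ k, y (t k) = 0 := by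
      intro k
      have h2 : β k * y (t k) = 0 := by
        fin_cases k
        · exact congrFun h0 0
        · exact congrFun h0 1
        · exact congrFun h0 2
      exact (mul_eq_zero.1 h2).resolve_left (hβ k)
    have h3 : ∀ k, b.repr x k = 0 := by
      intro k
      have h4 := hx (t k)
      rw [h1 k, zero_pow (by omega), hk k] at h4
      exact (mul_eq_zero.1 h4.symm).resolve_right (hne k)
    apply hy
    funext i
    have h5 := hx i
    rw [hsum] at h5
    simp only [h3, zero_mul, Finset.sum_const_zero] at h5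
    exact pow_eq_zero_iff (by omega) |>.1 h5

/-- The continuous map `HK l n → P^1`: `w ↦ phi n (Xc t j β w.1.1.rep)`. If `y ^ n = l (x)`, then
`x = ∑ x_k e_k`, `y (t k) ^ n = x_k l (t k) (e k)`, `y j ^ n = ∑ x_k l j (e k)`, which is the
equation of `phi_eq` for `X = Xc t j β y`; `X = 0` gives `x = 0` and `y = 0`. Continuity: on the open
set `vA ≠ 0` of the projective space the map is `proj1 (vA ..)`, on the open set `vB ≠ 0` it is
`proj1 (vB ..)`; both are continuous there because the projective space has the quotient topology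
(`Topology.IsQuotientMap.continuousOn_isOpen_iff`) and because they are invariant under scaling. -/
theorem phi_main {ι : Type} [Fintype ι] (l : ι → Form) (n : ℕ) (hn : 2 ≤ n)
    (hl0 : ∀ i, l i ≠ 0) (t : Fin 3 → ι) (e : Fin 3 → (Fin 3 → ℂ)) (hT : SimpleTriangle l t e)
    (j : ι) (hj : j ∉ Set.range t) (β : Fin 3 → ℂ) (hβ : ∀ k, β k ≠ 0)
    (hβn : ∀ k, β k ^ n = l j (e k) / l (t k) (e k)) :
    ∃ Φ : HK l n → Fin 2 → Fin 2 → ℂ, Continuous Φ ∧
      (∀ w, Matrix.of (Φ w) * Matrix.of (Φ w) = Matrix.of (Φ w)) ∧ (∀ w, Φ w ≠ 0) ∧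
      ∀ (w : HK l n) (y : ι → ℂ) (hy : y ≠ 0), w.1.1 = Projectivization.mk ℂ y hy →
        Φ w = phi n (Xc t j β y) := by
  have hpt : ∀ w : HK l n, Xc t j β w.1.1.rep 0 ^ n + Xc t j β w.1.1.rep 1 ^ n +
      Xc t j β w.1.1.rep 2 ^ n = Xc t j β w.1.1.rep 3 ^ n ∧ Xc t j β w.1.1.rep ≠ 0 := fun w =>
    point_Phi l n hn hl0 t e hT j β hβ hβn w.1.1.rep w.1.1.rep_nonzero w.2.1
  have hπ : Continuous fun w : HK l n => w.1.1 := continuous_fst.comp continuous_subtype_val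
  refine ⟨fun w => phi n (Xc t j β w.1.1.rep), ?_, fun w => phi_idem_Phi n _,
    fun w => phi_ne_zero_Phi n hn _ (hpt w).2, ?_⟩
  · rw [continuous_iff_continuousAt]
    intro w
    by_cases hA : vA n (Xc t j β w.1.1.rep) = 0
    · have hB : vB n (Xc t j β w.1.1.rep) ≠ 0 := fun hB => (hpt w).2 (vA_or_vB n hn _ hA hB)
      have hG := homB_Phi n t j β
      have hO : IsOpen {w : HK l n | vB n (Xc t j β w.1.1.rep) ≠ 0} := hG.isOpen.preimage hπ
      have hc : ContinuousAt (fun w : HK l n => proj1 (vB n (Xc t j β w.1.1.rep))) w := by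
        have h1 := hG.contOn.continuousAt (hG.isOpen.mem_nhds (show w.1.1 ∈ _ from hB))
        exact ContinuousAt.comp (f := fun w : HK l n => w.1.1) h1 hπ.continuousAt
      refine hc.congr ?_
      filter_upwards [hO.mem_nhds hB] with w' hw'
      exact (phi_eq n (by omega) _ (hpt w').1 hw').symm
    · have hG := homA_Phi n t j β
      have hO : IsOpen {w : HK l n | vA n (Xc t j β w.1.1.rep) ≠ 0} := hG.isOpen.preimage hπ
      have hc : ContinuousAt (fun w : HK l n => proj1 (vA n (Xc t j β w.1.1.rep))) w := by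
        have h1 := hG.contOn.continuousAt (hG.isOpen.mem_nhds (show w.1.1 ∈ _ from hA))
        exact ContinuousAt.comp (f := fun w : HK l n => w.1.1) h1 hπ.continuousAt
      refine hc.congr ?_
      filter_upwards [hO.mem_nhds hA] with w' hw'
      exact (phi_pos_Phi n _ hw').symm
  · intro w y hy hw
    obtain ⟨a, ha⟩ := Projectivization.exists_smul_eq_mk_rep ℂ y hy
    have h : w.1.1.rep = (a : ℂ) • y := by
      rw [hw]
      exact ha.symm
    change phi n (Xc t j β w.1.1.rep) = _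
    rw [h, Xc_smul_Phi, phi_smul_Phi n _ a.ne_zero]

end Pool.Agent.H.MP_02294b_ag
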