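import Mathlib

/-!
# MP_02294b : transport of a line
-/

open Matrix

namespace Pool.Agent.H.MP_02294b_ag

theorem trans_norm_le (A : Fin 2 → Fin 2 → ℂ) (u : Fin 2 → ℂ) :
    ‖Matrix.of A *ᵥ u‖ ≤ 2 * ‖A‖ * ‖u‖ := by
  rw [pi_norm_le_iff_of_nonneg (by positivity)]
  intro i
  have h1 : (Matrix.of A *ᵥ u) i = A i 0 * u 0 + A i 1 * u 1 := by
    simp [Matrix.mulVec, dotProduct, Fin.sum_univ_two]
  have h2 : ∀ j, ‖A i j‖ ≤ ‖A‖ := fun j => (norm_le_pi_norm (A i) j).trans (norm_le_pi_norm A i)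
  have h3 : ∀ j, ‖A i j * u j‖ ≤ ‖A‖ * ‖u‖ := fun j => by
    rw [norm_mul]
    exact mul_le_mul (h2 j) (norm_le_pi_norm u j) (norm_nonneg _) (norm_nonneg _)
  rw [h1]
  calc ‖A i 0 * u 0 + A i 1 * u 1‖ ≤ ‖A i 0 * u 0‖ + ‖A i 1 * u 1‖ := norm_add_le _ _
    _ ≤ ‖A‖ * ‖u‖ + ‖A‖ * ‖u‖ := add_le_add (h3 0) (h3 1)
    _ = 2 * ‖A‖ * ‖u‖ := by ring

/-- Transport: a homotopy `M (s, x)` of idempotent matrices from a constant one; there is a
nowhere zero section `f` over time `1`. Choose `N` with `‖M (s, x) - M (s', x)‖ < 1/4` (all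
entries) for `|s - s'| ≤ 1/N` (uniform continuity, `D` compact) and put `f_0 = w`,
`f_(j+1) x = M ((j+1)/N, x) *ᵥ f_j x`. -/
theorem transport {D : Type} [TopologicalSpace D] [CompactSpace D]
    (M : unitInterval × D → Fin 2 → Fin 2 → ℂ) (hM : Continuous M)
    (idem : ∀ z, Matrix.of (M z) * Matrix.of (M z) = Matrix.of (M z)) (w : Fin 2 → ℂ)
    (hw : w ≠ 0) (h0 : ∀ x, Matrix.of (M (0, x)) *ᵥ w = w) :
    ∃ f : D → (Fin 2 → ℂ), Continuous f ∧ (∀ x, f x ≠ 0) ∧
      (∀ x, Matrix.of (M (1, x)) *ᵥ f x = f x) ∧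
      ∀ x y, (∀ s, M (s, x) = M (s, y)) → f x = f y := by
  let F : C(unitInterval, C(D, Fin 2 → Fin 2 → ℂ)) := ContinuousMap.curry ⟨M, hM⟩
  have hF : UniformContinuous F := CompactSpace.uniformContinuous_of_continuous F.continuous
  obtain ⟨δ, hδ, hF'⟩ := Metric.uniformContinuous_iff.1 hF (1 / 4) (by norm_num)
  obtain ⟨n, hn⟩ := exists_nat_one_div_lt hδ
  let t : ℕ → unitInterval := fun j => Set.projIcc 0 1 zero_le_one ((j : ℝ) / (n + 1))
  have ht0 : t 0 = 0 := by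
    show Set.projIcc (0 : ℝ) 1 zero_le_one (((0 : ℕ) : ℝ) / (n + 1)) = 0
    rw [Nat.cast_zero, zero_div]
    exact Set.projIcc_left (zero_le_one (α := ℝ))
  have ht1 : t (n + 1) = 1 := by
    show Set.projIcc (0 : ℝ) 1 zero_le_one (((n + 1 : ℕ) : ℝ) / (n + 1)) = 1
    have h1 : (((n + 1 : ℕ) : ℝ) / (n + 1)) = 1 := by
      push_cast
      exact div_self (by positivity)
    rw [h1]
    exact Set.projIcc_right (zero_le_one (α := ℝ))
  have htd : ∀ j, dist (t j) (t (j + 1)) < δ := by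
    intro j
    have h1 := (LipschitzWith.projIcc (zero_le_one (α := ℝ))).dist_le_mul ((j : ℝ) / (n + 1))
      (((j + 1 : ℕ) : ℝ) / (n + 1))
    have h2 : dist ((j : ℝ) / (n + 1)) (((j + 1 : ℕ) : ℝ) / (n + 1)) = 1 / (n + 1) := by
      rw [Real.dist_eq, ← sub_div, abs_div, abs_of_pos (by positivity : (0 : ℝ) < n + 1)]
      push_cast
      rw [show (j : ℝ) - (j + 1) = -1 by ring, abs_neg, abs_one]
    rw [h2, NNReal.coe_one, one_mul] at h1
    exact lt_of_le_of_lt h1 hn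
  have hclose : ∀ j x, ‖M (t j, x) - M (t (j + 1), x)‖ < 1 / 4 := by
    intro j x
    have h1 : dist (F (t j)) (F (t (j + 1))) < 1 / 4 := hF' (htd j)
    have h2 := lt_of_le_of_lt (ContinuousMap.dist_apply_le_dist x) h1
    rw [← dist_eq_norm]
    exact h2
  let f : ℕ → D → (Fin 2 → ℂ) := fun j => Nat.rec (fun _ => w)
    (fun j g x => Matrix.of (M (t (j + 1), x)) *ᵥ g x) j
  have hf0 : ∀ x, f 0 x = w := fun x => rfl
  have hfs : ∀ j x, f (j + 1) x = Matrix.of (M (t (j + 1), x)) *ᵥ f j x := fun j x => rfl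
  have key : ∀ j, Continuous (f j) ∧ (∀ x, f j x ≠ 0) ∧
      (∀ x, Matrix.of (M (t j, x)) *ᵥ f j x = f j x) ∧
      ∀ x y, (∀ s, M (s, x) = M (s, y)) → f j x = f j y := by
    intro j
    induction j with
    | zero =>
      refine ⟨continuous_const, fun x => hw, fun x => ?_, fun x y _ => rfl⟩
      rw [ht0, hf0]
      exact h0 x
    | succ j ih =>
      obtain ⟨ih1, ih2, ih3, ih4⟩ := ih
      refine ⟨?_, fun x hx => ?_, fun x => ?_, fun x y hxy => ?_⟩
      · have h1 : Continuous fun x => Matrix.of (M (t (j + 1), x)) := by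
          have h2 : Continuous fun x => M (t (j + 1), x) := hM.comp (by fun_prop)
          exact h2
        exact h1.matrix_mulVec ih1
      · rw [hfs] at hx
        have h1 : Matrix.of (M (t j, x) - M (t (j + 1), x)) *ᵥ f j x = f j x := by
          have h2 : Matrix.of (M (t j, x) - M (t (j + 1), x)) =
              Matrix.of (M (t j, x)) - Matrix.of (M (t (j + 1), x)) := rfl
          rw [h2, Matrix.sub_mulVec, hx, ih3, sub_zero]
        have h3 := trans_norm_le (M (t j, x) - M (t (j + 1), x)) (f j x)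
        rw [h1] at h3
        have h4 : 0 < ‖f j x‖ := norm_pos_iff.2 (ih2 x)
        have h5 := hclose j x
        nlinarith
      · rw [hfs, Matrix.mulVec_mulVec, idem]
      · rw [hfs, hfs, hxy, ih4 x y hxy]
  obtain ⟨h1, h2, h3, h4⟩ := key (n + 1)
  rw [ht1] at h3
  exact ⟨f (n + 1), h1, h2, h3, h4⟩

end Pool.Agent.H.MP_02294b_ag
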