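import Pool.Agent.H.MP_02294b_ag.Rho

/-!
# MP_02294b : the winding number
-/

open Complex

namespace Pool.Agent.H.MP_02294b_ag

/-- A segment that avoids the origin: increment of the logarithm. If `L` is continuous on
`[a, b]`, `exp (L θ) = z * h θ` with `h` continuous, values in the slit plane, `h a = 1`, then
`L b - L a = log (h b)`: the function `L θ - L a - log (h θ)` is continuous and its exponential is
`1`; it vanishes at `a`. -/
theorem log_incr (a b : ℝ) (hab : a ≤ b) (L h : ℝ → ℂ) (z : ℂ) (hz : z ≠ 0)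
    (hL : ContinuousOn L (Set.Icc a b)) (hh : ContinuousOn h (Set.Icc a b))
    (hs : ∀ θ ∈ Set.Icc a b, h θ ∈ slitPlane) (h1 : h a = 1)
    (he : ∀ θ ∈ Set.Icc a b, exp (L θ) = z * h θ) : L b - L a = log (h b) := by
  obtain ⟨F, hF⟩ : ∃ F : ℝ → ℂ, F = fun θ => L θ - L a - log (h θ) := ⟨_, rfl⟩
  have ha : a ∈ Set.Icc a b := ⟨le_rfl, hab⟩
  have hb : b ∈ Set.Icc a b := ⟨hab, le_rfl⟩
  have hFc : ContinuousOn F (Set.Icc a b) := by
    rw [hF]
    exact (hL.sub continuousOn_const).sub (hh.clog hs)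
  have hFa : F a = 0 := by
    simp [hF, h1]
  have hFi : ∀ θ ∈ Set.Icc a b, ∃ n : ℤ, F θ = n * (2 * Real.pi * I) := by
    intro θ hθ
    rw [← exp_eq_one_iff, hF]
    have h2 : h θ ≠ 0 := slitPlane_ne_zero (hs θ hθ)
    change exp (L θ - L a - log (h θ)) = 1
    rw [exp_sub, exp_sub, he θ hθ, he a ha, h1, exp_log h2]
    field_simp
  have hgc : ContinuousOn (fun θ => (F θ).im) (Set.Icc a b) := continuous_im.comp_continuousOn hFc
  have him : ∀ θ ∈ Set.Icc a b, ∀ n : ℤ, F θ = n * (2 * Real.pi * I) → (F θ).im = n * (2 * Real.pi) := by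
    intro θ _ n hn
    rw [hn]
    simp
  have hpi := Real.pi_pos
  have key : ∀ θ ∈ Set.Icc a b, (F θ).im ≠ Real.pi ∧ (F θ).im ≠ -Real.pi := by
    intro θ hθ
    obtain ⟨n, hn⟩ := hFi θ hθ
    rw [him θ hθ n hn]
    constructor
    · intro h
      have h2 : (2 * n : ℝ) = 1 := by
        apply mul_right_cancel₀ hpi.ne'
        linarith
      have h3 : (2 * n : ℤ) = 1 := by exact_mod_cast h2
      omega
    · intro h
      have h2 : (2 * n : ℝ) = -1 := by
        apply mul_right_cancel₀ hpi.ne'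
        linarith
      have h3 : (2 * n : ℤ) = -1 := by exact_mod_cast h2
      omega
  have hFa' : (F a).im = 0 := by rw [hFa]; simp
  obtain ⟨n, hn⟩ := hFi b hb
  have hn' := him b hb n hn
  have hn0 : n = 0 := by
    by_contra hne
    rcases lt_or_gt_of_ne hne with h2 | h2
    · have h3 : (n : ℝ) ≤ -1 := by exact_mod_cast (by omega : n ≤ -1)
      have h4 : -Real.pi ∈ Set.Icc (F b).im (F a).im := by
        rw [hFa', hn']
        constructor
        · nlinarith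
        · linarith
      obtain ⟨c, hc, hc'⟩ := intermediate_value_Icc' hab hgc h4
      exact (key c hc).2 hc'
    · have h3 : (1 : ℝ) ≤ n := by exact_mod_cast (by omega : 1 ≤ n)
      have h4 : Real.pi ∈ Set.Icc (F a).im (F b).im := by
        rw [hFa', hn']
        constructor
        · linarith
        · nlinarith
      obtain ⟨c, hc, hc'⟩ := intermediate_value_Icc hab hgc h4
      exact (key c hc).1 hc'
  rw [hn0, Int.cast_zero, zero_mul, hF] at hn
  exact sub_eq_zero.mp hn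

theorem slit_Wind {a b : ℝ} {w : ℂ} (ha : 0 ≤ a) (hb : 0 ≤ b) (hab : 0 < a + b)
    (hw : w ∈ slitPlane) : (a : ℂ) + w * b ∈ slitPlane := by
  rw [mem_slitPlane_iff] at hw ⊢
  have h1 : ((a : ℂ) + w * b).re = a + w.re * b := by simp
  have h2 : ((a : ℂ) + w * b).im = w.im * b := by simp
  rw [h1, h2]
  rcases hb.eq_or_lt with h3 | h3
  · left
    rw [← h3] at hab ⊢
    linarith
  · by_cases h4 : w.im = 0
    · left
      rcases hw with h5 | h5
      · positivity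
      · exact absurd h4 h5
    · right
      exact mul_ne_zero h4 h3.ne'

theorem quad_Wind {a b : ℝ} (hab : a ≤ b) {L : ℝ → ℂ} (hL : Continuous L) {z w : ℂ} (hz : z ≠ 0)
    (hw : w ∈ slitPlane) {s t : ℝ → ℝ} (hs : Continuous s) (ht : Continuous t)
    (hs0 : ∀ θ ∈ Set.Icc a b, 0 ≤ s θ) (ht0 : ∀ θ ∈ Set.Icc a b, 0 ≤ t θ)
    (hst : ∀ θ, s θ ^ 2 + t θ ^ 2 = 1) (hsa : s a = 1) (hta : t a = 0) (hsb : s b = 0)
    (htb : t b = 1) (he : ∀ θ ∈ Set.Icc a b, exp (L θ) = z * (s θ + w * t θ)) :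
    L b - L a = log w := by
  have h1 := log_incr a b hab L (fun θ => (s θ : ℂ) + w * t θ) z hz hL.continuousOn
    (by fun_prop) (fun θ hθ => ?_) (by simp [hsa, hta]) he
  · rw [h1, hsb, htb]
    simp
  · refine slit_Wind (hs0 θ hθ) (ht0 θ hθ) ?_ hw
    have h2 := hs0 θ hθ
    have h3 := ht0 θ hθ
    have h4 := hst θ
    nlinarith

theorem arg_polar_Wind {r ψ : ℝ} (hr : 0 < r) (h1 : -Real.pi < ψ) (h2 : ψ < Real.pi) :
    (r : ℂ) * exp (ψ * I) ∈ slitPlane ∧ (log ((r : ℂ) * exp (ψ * I))).im = ψ := by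
  have h3 : arg ((r : ℂ) * exp (ψ * I)) = ψ := by
    rw [exp_mul_I]
    exact arg_mul_cos_add_sin_mul_I hr ⟨h1, h2.le⟩
  refine ⟨?_, ?_⟩
  · rw [mem_slitPlane_iff_arg, h3]
    refine ⟨h2.ne, mul_ne_zero (by exact_mod_cast hr.ne') (exp_ne_zero _)⟩
  · rw [log_im, h3]

/-- The curve `g1 ρ(cos θ) - α g2 ρ(sin θ)` has winding number one: there is no continuous
logarithm. With `q = -α g2 / g1`, `arg q = π - π/n + δ`, `|δ| < π/n`: the increments over the four
quadrants are `log q`, `log (ζ/q)`, `log q`, `log (1/(ζ q))` with imaginary parts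
`arg q`, `2π/n - arg q`, `arg q`, `2π - 2π/n - arg q`, sum `2π`. -/
theorem wind (n : ℕ) (hn : 2 ≤ n) (g1 g2 : ℂ) (δ : ℝ) (hδ : |δ| < Real.pi / n) (r : ℝ) (hr : 0 < r)
    (hg1 : g1 ≠ 0) (hq : g2 / g1 = r * exp (δ * I)) (κ : ℝ) (hκ : 0 < κ) (L : ℝ → ℂ)
    (hL : Continuous L) (hper : L (2 * Real.pi) = L 0)
    (he : ∀ θ, exp (L θ) = κ * (g1 * rho n (Real.cos θ) - alp n * g2 * rho n (Real.sin θ))) :
    False := by
  have hpi := Real.pi_pos
  have hn2 : (2 : ℝ) ≤ n := by exact_mod_cast hn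
  have hn0 : (0 : ℝ) < n := by linarith
  obtain ⟨p, hp⟩ : ∃ p : ℝ, p = Real.pi / n := ⟨_, rfl⟩
  have hp0 : 0 < p := by rw [hp]; positivity
  have hp2 : p ≤ Real.pi / 2 := by
    rw [hp]
    exact div_le_div_of_nonneg_left hpi.le (by norm_num) hn2
  rw [← hp] at hδ
  obtain ⟨hδ1, hδ2⟩ := abs_lt.mp hδ
  obtain ⟨φ, hφ⟩ : ∃ φ : ℝ, φ = Real.pi - p + δ := ⟨_, rfl⟩
  obtain ⟨q, hqd⟩ : ∃ q : ℂ, q = (r : ℂ) * exp (φ * I) := ⟨_, rfl⟩
  obtain ⟨ζ, hζ⟩ : ∃ ζ : ℂ, ζ = exp (2 * Real.pi * I / n) := ⟨_, rfl⟩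
  have hζ' : ζ = exp (((2 * p : ℝ) : ℂ) * I) := by
    rw [hζ, hp]
    congr 1
    push_cast
    ring
  have hζ0 : ζ ≠ 0 := by rw [hζ]; exact exp_ne_zero _
  have hr0 : (r : ℂ) ≠ 0 := by exact_mod_cast hr.ne'
  have hq0 : q ≠ 0 := by rw [hqd]; exact mul_ne_zero hr0 (exp_ne_zero _)
  have hκ0 : (κ : ℂ) ≠ 0 := by exact_mod_cast hκ.ne'
  have hqg : g1 * q = -(alp n * g2) := by
    have h1 : g2 = g1 * (r * exp (δ * I)) := by
      rw [← hq]
      field_simp
    have h2 : alp n = exp (-(p : ℂ) * I) := by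
      rw [alp, hp]
      congr 1
      push_cast
      ring
    have h3 : exp ((φ : ℂ) * I) = -(exp (-(p : ℂ) * I) * exp (δ * I)) := by
      rw [hφ, ← exp_add]
      have h4 : (((Real.pi - p + δ : ℝ) : ℂ)) * I = (Real.pi : ℂ) * I + (-(p : ℂ) * I + δ * I) := by
        push_cast
        ring
      rw [h4, exp_add, exp_pi_mul_I]
      ring
    rw [hqd, h3, h2, h1]
    ring
  -- the four values
  obtain ⟨hs1, hi1⟩ := arg_polar_Wind (ψ := φ) hr (by linarith) (by linarith)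
  rw [← hqd] at hs1 hi1
  have hw2 : ζ / q = ((r⁻¹ : ℝ) : ℂ) * exp (((2 * p - φ : ℝ) : ℂ) * I) := by
    rw [hζ', hqd]
    have h1 : (((2 * p - φ : ℝ) : ℂ)) * I = ((2 * p : ℝ) : ℂ) * I - φ * I := by
      push_cast
      ring
    rw [h1, exp_sub]
    push_cast
    field_simp
  obtain ⟨hs2, hi2⟩ := arg_polar_Wind (r := r⁻¹) (ψ := 2 * p - φ) (inv_pos.mpr hr) (by linarith)
    (by linarith)
  rw [← hw2] at hs2 hi2
  have hw4 : 1 / (q * ζ) = ((r⁻¹ : ℝ) : ℂ) * exp (((2 * Real.pi - 2 * p - φ : ℝ) : ℂ) * I) := by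
    rw [hζ', hqd]
    have h1 : (((2 * Real.pi - 2 * p - φ : ℝ) : ℂ)) * I =
        2 * Real.pi * I - (((2 * p : ℝ) : ℂ) * I + φ * I) := by
      push_cast
      ring
    rw [h1, exp_sub, exp_two_pi_mul_I, exp_add]
    push_cast
    field_simp
  obtain ⟨hs4, hi4⟩ := arg_polar_Wind (r := r⁻¹) (ψ := 2 * Real.pi - 2 * p - φ) (inv_pos.mpr hr)
    (by linarith) (by linarith)
  rw [← hw4] at hs4 hi4
  -- the four quadrants
  have q1 : L (Real.pi / 2) - L 0 = log q := by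
    refine quad_Wind (z := κ * g1) (s := Real.cos) (t := Real.sin) (by linarith) hL
      (mul_ne_zero hκ0 hg1) hs1 Real.continuous_cos Real.continuous_sin ?_ ?_
      (fun θ => by nlinarith [Real.sin_sq_add_cos_sq θ]) (by simp) (by simp) (by simp) (by simp) ?_
    · exact fun θ hθ => Real.cos_nonneg_of_mem_Icc ⟨by linarith [hθ.1], hθ.2⟩
    · exact fun θ hθ => Real.sin_nonneg_of_nonneg_of_le_pi hθ.1 (by linarith [hθ.2])
    · intro θ hθ
      rw [he, rho_nonneg n _ (Real.cos_nonneg_of_mem_Icc ⟨by linarith [hθ.1], hθ.2⟩),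
        rho_nonneg n _ (Real.sin_nonneg_of_nonneg_of_le_pi hθ.1 (by linarith [hθ.2]))]
      linear_combination (-(κ : ℂ) * Real.sin θ) * hqg
  have hc2 : ∀ θ ∈ Set.Icc (Real.pi / 2) Real.pi, Real.cos θ ≤ 0 := fun θ hθ =>
    Real.cos_nonpos_of_pi_div_two_le_of_le hθ.1 (by linarith [hθ.2])
  have q2 : L Real.pi - L (Real.pi / 2) = log (ζ / q) := by
    refine quad_Wind (z := κ * g1 * q) (s := Real.sin) (t := fun θ => -Real.cos θ) (by linarith) hL
      (mul_ne_zero (mul_ne_zero hκ0 hg1) hq0) hs2 Real.continuous_sin Real.continuous_cos.neg ?_ ?_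
      (fun θ => by nlinarith [Real.sin_sq_add_cos_sq θ]) (by simp) (by simp) (by simp) (by simp) ?_
    · exact fun θ hθ => Real.sin_nonneg_of_nonneg_of_le_pi (by linarith [hθ.1]) hθ.2
    · exact fun θ hθ => by linarith [hc2 θ hθ]
    · intro θ hθ
      rw [he, rho_nonpos n _ (hc2 θ hθ), abs_of_nonpos (hc2 θ hθ),
        rho_nonneg n _ (Real.sin_nonneg_of_nonneg_of_le_pi (by linarith [hθ.1]) hθ.2), ← hζ]
      have h1 : (κ : ℂ) * g1 * q * (Real.sin θ + ζ / q * ((-Real.cos θ : ℝ) : ℂ)) =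
          κ * (g1 * q) * Real.sin θ + κ * g1 * ζ * ((-Real.cos θ : ℝ) : ℂ) := by
        field_simp
      rw [h1]
      linear_combination (-(κ : ℂ) * Real.sin θ) * hqg
  have hc3 : ∀ θ ∈ Set.Icc Real.pi (3 * Real.pi / 2), Real.cos θ ≤ 0 := fun θ hθ =>
    Real.cos_nonpos_of_pi_div_two_le_of_le (by linarith [hθ.1]) (by linarith [hθ.2])
  have hs3 : ∀ θ, Real.pi ≤ θ → θ ≤ 2 * Real.pi → Real.sin θ ≤ 0 := fun θ h1 h2 => by
    have h3 : 0 ≤ Real.sin (θ - Real.pi) :=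
      Real.sin_nonneg_of_nonneg_of_le_pi (by linarith) (by linarith)
    rw [Real.sin_sub_pi] at h3
    linarith
  have hsv : Real.sin (3 * Real.pi / 2) = -1 := by
    have h1 : 3 * Real.pi / 2 = Real.pi / 2 + Real.pi := by ring
    rw [h1, Real.sin_add_pi, Real.sin_pi_div_two]
  have hcv : Real.cos (3 * Real.pi / 2) = 0 := by
    have h1 : 3 * Real.pi / 2 = Real.pi / 2 + Real.pi := by ring
    rw [h1, Real.cos_add_pi, Real.cos_pi_div_two, neg_zero]
  have q3 : L (3 * Real.pi / 2) - L Real.pi = log q := by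
    refine quad_Wind (z := κ * g1 * ζ) (s := fun θ => -Real.cos θ) (t := fun θ => -Real.sin θ)
      (by linarith) hL (mul_ne_zero (mul_ne_zero hκ0 hg1) hζ0) hs1 Real.continuous_cos.neg
      Real.continuous_sin.neg ?_ ?_
      (fun θ => by nlinarith [Real.sin_sq_add_cos_sq θ]) (by simp) (by simp) (by simp [hcv])
      (by simp [hsv]) ?_
    · exact fun θ hθ => by linarith [hc3 θ hθ]
    · exact fun θ hθ => by linarith [hs3 θ hθ.1 (by linarith [hθ.2])]
    · intro θ hθ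
      have h2 := hs3 θ hθ.1 (by linarith [hθ.2])
      rw [he, rho_nonpos n _ (hc3 θ hθ), abs_of_nonpos (hc3 θ hθ),
        rho_nonpos n _ h2, abs_of_nonpos h2, ← hζ]
      rw [ofReal_neg, ofReal_neg]
      linear_combination ((κ : ℂ) * Real.sin θ * ζ) * hqg
  have hc4 : ∀ θ ∈ Set.Icc (3 * Real.pi / 2) (2 * Real.pi), 0 ≤ Real.cos θ := fun θ hθ => by
    have h3 : 0 ≤ Real.cos (θ - 2 * Real.pi) :=
      Real.cos_nonneg_of_mem_Icc ⟨by linarith [hθ.1], by linarith [hθ.2]⟩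
    rwa [Real.cos_sub_two_pi] at h3
  have q4 : L (2 * Real.pi) - L (3 * Real.pi / 2) = log (1 / (q * ζ)) := by
    refine quad_Wind (z := κ * g1 * q * ζ) (s := fun θ => -Real.sin θ) (t := Real.cos)
      (by linarith) hL (mul_ne_zero (mul_ne_zero (mul_ne_zero hκ0 hg1) hq0) hζ0) hs4
      Real.continuous_sin.neg Real.continuous_cos ?_ hc4
      (fun θ => by nlinarith [Real.sin_sq_add_cos_sq θ]) (by simp [hsv]) (by simp [hcv]) (by simp)
      (by simp) ?_
    · exact fun θ hθ => by linarith [hs3 θ (by linarith [hθ.1]) hθ.2]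
    · intro θ hθ
      have h2 := hs3 θ (by linarith [hθ.1]) hθ.2
      rw [he, rho_nonneg n _ (hc4 θ hθ), rho_nonpos n _ h2, abs_of_nonpos h2, ← hζ]
      have h1 : (κ : ℂ) * g1 * q * ζ * (((-Real.sin θ : ℝ) : ℂ) + 1 / (q * ζ) * Real.cos θ) =
          κ * (g1 * q) * ζ * ((-Real.sin θ : ℝ) : ℂ) + κ * g1 * Real.cos θ := by
        field_simp
      rw [h1, ofReal_neg]
      linear_combination ((κ : ℂ) * Real.sin θ * ζ) * hqg
  have hsum : log q + log (ζ / q) + log q + log (1 / (q * ζ)) = 0 := by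
    rw [hper] at q4
    linear_combination -q1 - q2 - q3 - q4
  have him := congrArg Complex.im hsum
  rw [add_im, add_im, add_im, hi1, hi2, hi4, zero_im] at him
  linarith

end Pool.Agent.H.MP_02294b_ag
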