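import Pool.Agent.H.MP_02294b_ag.Vmap
import Pool.Agent.H.MP_02294b_ag.Phi
import Pool.Agent.H.MP_02294b_ag.Cover
import Pool.Agent.H.MP_02294b_ag.Trans
import Pool.Agent.H.MP_02294b_ag.Logb
import Pool.Agent.H.MP_02294b_ag.Wind

/-!
# MP_02294b : Theorem N
-/

open Complex Matrix
open scoped LinearAlgebra.Projectivization

namespace Pool.Agent.H.MP_02294b_ag

/-- The closed disc. -/
abbrev Dsc := Metric.closedBall (0 : ℂ) 1

open Classical in
/-- Extension by zero of a function on the closed disc. -/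
noncomputable def ext0 (f : Dsc → ℂ) (x : ℂ) : ℂ :=
  if h : x ∈ Metric.closedBall (0 : ℂ) 1 then f ⟨x, h⟩ else 0

theorem ext0_apply (f : Dsc → ℂ) (x : Dsc) : ext0 f x = f x := by
  rw [ext0, dif_pos x.2]

theorem ext0_cont (f : Dsc → ℂ) (hf : Continuous f) :
    ContinuousOn (ext0 f) (Metric.closedBall 0 1) := by
  have h1 : Continuous fun x : Dsc => ext0 f (x : ℂ) := by
    simpa only [ext0_apply] using hf
  exact continuousOn_iff_continuous_domRestrict.mpr h1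

/-- The point `r e^{iθ}`. -/
noncomputable def cp (r θ : ℝ) : ℂ := r * exp (θ * I)

theorem cp_norm (r θ : ℝ) (hr : 0 ≤ r) : ‖cp r θ‖ = r := by
  rw [cp, norm_mul, Complex.norm_exp_ofReal_mul_I, mul_one, norm_real, Real.norm_of_nonneg hr]

theorem cp_re (r θ : ℝ) : (cp r θ).re = r * Real.cos θ := by
  rw [cp, exp_mul_I, re_ofReal_mul]
  simp [← ofReal_cos, ← ofReal_sin]

theorem cp_im (r θ : ℝ) : (cp r θ).im = r * Real.sin θ := by
  rw [cp, exp_mul_I, im_ofReal_mul]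
  simp [← ofReal_cos, ← ofReal_sin]

theorem cp_cont (r : ℝ) : Continuous (cp r) := by
  unfold cp
  fun_prop

theorem cp_per (r : ℝ) : cp r (2 * Real.pi) = cp r 0 := by
  unfold cp
  push_cast
  rw [exp_two_pi_mul_I, zero_mul, exp_zero]

/-- Positive homogeneity of `rho`. -/
theorem rho_smul (n : ℕ) (κ : ℝ) (hκ : 0 ≤ κ) (a : ℝ) : rho n (κ * a) = κ * rho n a := by
  rw [rho, rho, ← mul_neg, ← mul_zero κ, ← mul_max_of_nonneg _ _ hκ,
    ← mul_max_of_nonneg _ _ hκ, mul_zero]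
  push_cast
  ring

/-- The analytic core: a section of the line of `(A, B)` over the disc is impossible. -/
theorem core (n : ℕ) (hn : 2 ≤ n) (c γ : Fin 3 → ℂ) (hγ : ∀ k, γ k ≠ 0)
    (hγn : ∀ k, γ k ^ n = c k)
    (hc : ∀ s : Fin 3 → ℝ, (∀ a, 0 ≤ s a) → s ≠ 0 → ∑ a, (s a : ℂ) * c a ≠ 0)
    (hδ : ∃ δ r : ℝ, |δ| < Real.pi / n ∧ 0 < r ∧ γ 1 / γ 0 = r * exp (δ * I))
    (R : Dsc → ℂ) (hR : Continuous R)
    (hRn : ∀ x, R x ^ n = ∑ k, ((|vv x k| ^ n : ℝ) : ℂ) * c k)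
    (hR1 : ∀ x : Dsc, (‖(x : ℂ)‖ = 1 ∨ (x : ℂ) = 0) → R x = γ 2)
    (f : Dsc → (Fin 2 → ℂ)) (hf : Continuous f) (hf0 : ∀ x, f x ≠ 0)
    (hfc : ∀ x y : Dsc, ‖(x : ℂ)‖ = 1 → ‖(y : ℂ)‖ = 1 → f x = f y)
    (hfφ : ∀ x : Dsc, Matrix.of (phi n ![γ 0 * rho n (vv x 0), γ 1 * rho n (vv x 1),
      γ 2 * rho n (vv x 2), R x]) *ᵥ f x = f x) : False := by
  classical
  have hn1 : 1 ≤ n := by omega
  have hn0 : n ≠ 0 := by omega
  -- B is not zero in the interior
  have hB : ∀ x : Dsc, ‖(x : ℂ)‖ < 1 → R x - γ 2 * rho n (vv x 2) ≠ 0 := by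
    intro x hx h0
    have h1 : R x = γ 2 * rho n (vv x 2) := sub_eq_zero.mp h0
    have h2 : ((|vv x 0| ^ n : ℝ) : ℂ) * c 0 + ((|vv x 1| ^ n : ℝ) : ℂ) * c 1 = 0 := by
      have h3 := hRn x
      rw [h1, mul_pow, rho_pow n hn1, hγn, Fin.sum_univ_three] at h3
      linear_combination -h3
    have h4 : (![|vv x 0| ^ n, |vv x 1| ^ n, 0] : Fin 3 → ℝ) = 0 := by
      by_contra hne
      refine hc _ ?_ hne ?_
      · intro a
        fin_cases a <;> simp <;> positivity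
      · rw [Fin.sum_univ_three]
        simpa using h2
    have h5 : |vv x 0| ^ n = 0 := congrFun h4 0
    have h6 : |vv x 1| ^ n = 0 := congrFun h4 1
    have h7 : (1 - ‖(x : ℂ)‖) * (x : ℂ).re = 0 := by
      have := abs_eq_zero.mp ((pow_eq_zero_iff hn0).mp h5)
      exact this
    have h8 : (1 - ‖(x : ℂ)‖) * (x : ℂ).im = 0 := by
      have := abs_eq_zero.mp ((pow_eq_zero_iff hn0).mp h6)
      exact this
    have h9 : (1 - ‖(x : ℂ)‖) ≠ 0 := by linarith
    have hx0 : (x : ℂ) = 0 := Complex.ext (by simpa [h9] using h7) (by simpa [h9] using h8)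
    have h10 := hR1 x (Or.inr hx0)
    rw [h10] at h1
    have h11 : vv x 2 = -1 := by
      show 2 * ‖(x : ℂ)‖ - 1 = -1
      rw [hx0, norm_zero]; norm_num
    rw [h11, rho_nonpos n _ (by norm_num)] at h1
    have h12 : exp (2 * Real.pi * I / n) = 1 := by
      apply mul_left_cancel₀ (hγ 2)
      rw [abs_neg, abs_one, ofReal_one, mul_one] at h1
      rw [mul_one]
      exact h1.symm
    rw [exp_eq_one_iff] at h12
    obtain ⟨m, hm⟩ := h12
    have hpi : (2 * Real.pi * I : ℂ) ≠ 0 := two_pi_I_ne_zero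
    have hnc : (n : ℂ) ≠ 0 := by exact_mod_cast hn0
    have h13 : (1 : ℂ) = m * n := by
      rw [div_eq_iff hnc] at hm
      have h14 : (2 * Real.pi * I : ℂ) * 1 = (2 * Real.pi * I) * (m * n) := by
        linear_combination hm
      exact mul_left_cancel₀ hpi h14
    have h15 : (1 : ℤ) = m * n := by exact_mod_cast h13
    have h16 : (n : ℤ) ∣ 1 := ⟨m, by linarith⟩
    have h17 : (n : ℤ) ≤ 1 := Int.le_of_dvd one_pos h16
    omega
  -- the section in the interior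
  have hint : ∀ x : Dsc, ‖(x : ℂ)‖ < 1 → ∃ μ : ℂ, μ ≠ 0 ∧
      f x 0 = μ * (γ 0 * rho n (vv x 0) - alp n * (γ 1 * rho n (vv x 1))) ∧
      f x 1 = μ * (R x - γ 2 * rho n (vv x 2)) := by
    intro x hx
    have h1 := hfφ x
    have h2 : vA n ![γ 0 * rho n (vv x 0), γ 1 * rho n (vv x 1),
      γ 2 * rho n (vv x 2), R x] ≠ 0 := by
      intro h
      exact hB x hx (congrFun h 1)
    rw [phi, if_pos h2] at h1
    obtain ⟨μ, hμ⟩ := proj1_mulVec_eq _ _ h1
    refine ⟨μ, ?_, congrFun hμ 0, congrFun hμ 1⟩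
    rintro rfl
    exact hf0 x (by rw [hμ, zero_smul])
  -- the value on the boundary
  have hone : (1 : ℂ) ∈ Metric.closedBall (0 : ℂ) 1 := by simp
  let x1 : Dsc := ⟨1, hone⟩
  have hx1 : ‖(x1 : ℂ)‖ = 1 := norm_one
  have hbd : f x1 0 ≠ 0 := by
    have h1 := hfφ x1
    rw [vv_boundary _ hx1, hR1 x1 (Or.inl hx1)] at h1
    have h2 : (![γ 0 * rho n ((![0, 0, 1] : Fin 3 → ℝ) 0), γ 1 * rho n ((![0, 0, 1] : Fin 3 → ℝ) 1),
        γ 2 * rho n ((![0, 0, 1] : Fin 3 → ℝ) 2), γ 2] : Fin 4 → ℂ) = ![0, 0, γ 2, γ 2] := by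
      ext k
      fin_cases k <;> simp [rho_zero, rho_one]
    rw [h2] at h1
    have h3 : ¬ (vA n ![0, 0, γ 2, γ 2] ≠ 0) := by
      rw [not_not]
      ext k
      fin_cases k <;> simp [vA]
    rw [phi, if_neg h3] at h1
    obtain ⟨μ, hμ⟩ := proj1_mulVec_eq _ _ h1
    have h4 : f x1 1 = 0 := by
      have h5 := congrFun hμ 1
      have h6 : vB n ![0, 0, γ 2, γ 2] 1 = 0 := by
        show ∑ k ∈ Finset.range n, (0 : ℂ) ^ k * (alp n * 0) ^ (n - 1 - k) = 0
        refine Finset.sum_eq_zero fun k _ => ?_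
        rw [mul_zero]
        rcases Nat.eq_zero_or_pos k with hk | hk
        · rw [hk, zero_pow (by omega : n - 1 - 0 ≠ 0), mul_zero]
        · rw [zero_pow (by omega : k ≠ 0), zero_mul]
      rw [h5, Pi.smul_apply, h6, smul_zero]
    intro h7
    apply hf0 x1
    ext k
    fin_cases k
    · exact h7
    · exact h4
  -- the radius
  obtain ⟨r, hr0, hr1, hr⟩ : ∃ r : ℝ, 0 < r ∧ r < 1 ∧ ∀ x : Dsc, ‖(x : ℂ)‖ = r →
      ‖f x 0 - f x1 0‖ < ‖f x1 0‖ := by
    have hc0 : Continuous fun x : Dsc => f x 0 := (continuous_apply 0).comp hf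
    have hu := CompactSpace.uniformContinuous_of_continuous hc0
    rw [Metric.uniformContinuous_iff] at hu
    obtain ⟨d, hd0, hd⟩ := hu _ (norm_pos_iff.mpr hbd)
    have hm : 0 < min (d / 2) (1 / 2) := by positivity
    have hm1 : min (d / 2) (1 / 2) ≤ 1 / 2 := min_le_right _ _
    have hm2 : min (d / 2) (1 / 2) ≤ d / 2 := min_le_left _ _
    refine ⟨1 - min (d / 2) (1 / 2), by linarith, by linarith, ?_⟩
    intro x hx
    set r := 1 - min (d / 2) (1 / 2) with hrdef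
    have hr0 : 0 < r := by linarith
    have hrc : ((r : ℝ) : ℂ) ≠ 0 := by exact_mod_cast hr0.ne'
    have hyn : ‖(x : ℂ) / r‖ = 1 := by
      rw [norm_div, hx, norm_real, Real.norm_of_nonneg hr0.le, div_self hr0.ne']
    have hy : (x : ℂ) / r ∈ Metric.closedBall (0 : ℂ) 1 := by
      rw [mem_closedBall_zero_iff, hyn]
    have h1 : f ⟨(x : ℂ) / r, hy⟩ = f x1 := hfc _ _ hyn hx1
    have h2 : dist x ⟨(x : ℂ) / r, hy⟩ < d := by
      rw [Subtype.dist_eq, dist_eq_norm]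
      have h3 : (x : ℂ) - (x : ℂ) / r = ((r - 1 : ℝ) : ℂ) * ((x : ℂ) / r) := by
        push_cast
        field_simp
      rw [h3, norm_mul, hyn, norm_real, mul_one, Real.norm_eq_abs, abs_lt]
      constructor <;> linarith
    have h3 := hd h2
    rw [dist_eq_norm] at h3
    simp only [h1] at h3
    exact h3
  -- the logarithm of the factor
  have hfc1 : Continuous fun x : Dsc => f x 1 := (continuous_apply 1).comp hf
  have hfc0 : Continuous fun x : Dsc => f x 0 := (continuous_apply 0).comp hf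
  have hBc : Continuous fun x : Dsc => R x - γ 2 * rho n (vv x 2) :=
    hR.sub (continuous_const.mul ((rho_cont n).comp
      ((continuous_apply 2).comp (vv_cont.comp continuous_subtype_val))))
  have hbc : Metric.ball (0 : ℂ) 1 ⊆ Metric.closedBall 0 1 := Metric.ball_subset_closedBall
  obtain ⟨ℓ, hℓc, hℓ⟩ := log_ball
    (fun x => ext0 (fun y => f y 1) x / ext0 (fun y => R y - γ 2 * rho n (vv y 2)) x)
    (by
      refine ContinuousOn.div ((ext0_cont _ hfc1).mono hbc) ((ext0_cont _ hBc).mono hbc) ?_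
      intro x hx
      have h1 := ext0_apply (fun y => R y - γ 2 * rho n (vv y 2)) ⟨x, hbc hx⟩
      rw [h1]
      exact hB _ (by simpa using hx))
    (by
      intro x hx
      have h1 := ext0_apply (fun y => R y - γ 2 * rho n (vv y 2)) ⟨x, hbc hx⟩
      have h2 := ext0_apply (fun y => f y 1) ⟨x, hbc hx⟩
      have hx' : ‖((⟨x, hbc hx⟩ : Dsc) : ℂ)‖ < 1 := by simpa using hx
      obtain ⟨μ, hμ0, -, hμ1⟩ := hint ⟨x, hbc hx⟩ hx'
      show ext0 (fun y => f y 1) ((⟨x, hbc hx⟩ : Dsc) : ℂ) /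
        ext0 (fun y => R y - γ 2 * rho n (vv y 2)) ((⟨x, hbc hx⟩ : Dsc) : ℂ) ≠ 0
      rw [h1, h2, hμ1]
      exact div_ne_zero (mul_ne_zero hμ0 (hB _ hx')) (hB _ hx'))
  have hcpn : ∀ θ, ‖cp r θ‖ = r := fun θ => cp_norm r θ hr0.le
  have hcpb : ∀ θ, cp r θ ∈ Metric.ball (0 : ℂ) 1 := fun θ => by
    rw [mem_ball_zero_iff, hcpn]
    exact hr1
  let P : ℝ → Dsc := fun θ => ⟨cp r θ, hbc (hcpb θ)⟩
  have hPc : Continuous P := Continuous.subtype_mk (cp_cont r) _
  have hPn : ∀ θ, ‖((P θ : Dsc) : ℂ)‖ = r := hcpn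
  obtain ⟨δ, r', hδ, hr', hq⟩ := hδ
  refine wind n hn (γ 0) (γ 1) δ hδ r' hr' (hγ 0) hq ((1 - r) * r) (mul_pos (by linarith) hr0)
    (fun θ => log (f x1 0) + log (f (P θ) 0 / f x1 0) - ℓ (cp r θ)) ?_ ?_ ?_
  · refine Continuous.sub (continuous_const.add ?_) (hℓc.comp_continuous (cp_cont r) hcpb)
    refine Continuous.clog ((hfc0.comp hPc).div_const _) fun θ => ?_
    have h1 := hr (P θ) (hPn θ)
    have h2 : f (P θ) 0 / f x1 0 = 1 + (f (P θ) 0 - f x1 0) / f x1 0 := by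
      field_simp
      ring
    rw [h2]
    apply mem_slitPlane_of_norm_lt_one
    rw [norm_div, div_lt_one (norm_pos_iff.mpr hbd)]
    exact h1
  · have h1 : P (2 * Real.pi) = P 0 := Subtype.ext (cp_per r)
    simp only [h1, cp_per]
  · intro θ
    have hlt : ‖((P θ : Dsc) : ℂ)‖ < 1 := by rw [hPn]; exact hr1
    obtain ⟨μ, hμ0, hμA, hμ1⟩ := hint (P θ) hlt
    have h1 := ext0_apply (fun y => R y - γ 2 * rho n (vv y 2)) (P θ)
    have h2 := ext0_apply (fun y => f y 1) (P θ)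
    have h3 : exp (ℓ (cp r θ)) = μ := by
      rw [hℓ _ (hcpb θ)]
      show ext0 (fun y => f y 1) ((P θ : Dsc) : ℂ) /
        ext0 (fun y => R y - γ 2 * rho n (vv y 2)) ((P θ : Dsc) : ℂ) = μ
      rw [h1, h2, hμ1]
      exact mul_div_cancel_right₀ _ (hB _ hlt)
    have h4 : f (P θ) 0 / f x1 0 ≠ 0 := by
      intro h5
      have h6 := hr (P θ) (hPn θ)
      rw [div_eq_zero_iff] at h5
      rcases h5 with h5 | h5
      · rw [h5, zero_sub, norm_neg] at h6
        exact lt_irrefl _ h6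
      · exact hbd h5
    have hκ : (0 : ℝ) < (1 - r) * r := mul_pos (by linarith) hr0
    have h7 : vv (P θ) 0 = (1 - r) * r * Real.cos θ := by
      show (1 - ‖((P θ : Dsc) : ℂ)‖) * (cp r θ).re = _
      rw [hPn, cp_re]
      ring
    have h8 : vv (P θ) 1 = (1 - r) * r * Real.sin θ := by
      show (1 - ‖((P θ : Dsc) : ℂ)‖) * (cp r θ).im = _
      rw [hPn, cp_im]
      ring
    rw [exp_sub, exp_add, exp_log hbd, exp_log h4, h3, mul_div_cancel₀ _ hbd, hμA, h7, h8,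
      rho_smul n _ hκ.le, rho_smul n _ hκ.le, mul_div_cancel_left₀ _ hμ0]
    ring

/-- Theorem N: no covering space of `HK l n` is contractible if the configuration contains a simple
triangle. -/
theorem main {ι : Type} [Fintype ι] (l : ι → Form) (n : ℕ) (hn : 2 ≤ n)
    (hI : 4 ≤ Fintype.card ι) (hl : ∀ i j, i ≠ j → LinearIndependent ℂ ![l i, l j])
    (t : Fin 3 → ι) (e : Fin 3 → (Fin 3 → ℂ)) (hT : SimpleTriangle l t e)
    {E : Type*} [TopologicalSpace E] (p : E → HK l n) (hp : IsCoveringMap p)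
    (hs : Function.Surjective p) : ¬ ContractibleSpace E := by
  classical
  intro hE
  have hl0 : ∀ i, l i ≠ 0 := by
    intro i
    have h1 : 1 < Fintype.card ι := by omega
    obtain ⟨i', hi'⟩ := Fintype.exists_ne_of_one_lt_card h1 i
    exact (hl i i' hi'.symm).ne_zero 0
  obtain ⟨j, hj⟩ : ∃ j, j ∉ Set.range t := by
    by_contra hcon
    push Not at hcon
    have h1 : Fintype.card ι ≤ Fintype.card (Fin 3) :=
      Fintype.card_le_of_surjective t fun i => hcon i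
    rw [Fintype.card_fin] at h1
    omega
  obtain ⟨β, γ, R, Y, hY, V, hβ, hβn, hγ, hγn, hδ, hR, hRn, hR1, hV, hV1, hVY, hYt, hYj⟩ :=
    exists_V l n hn hl0 t e hT j hj
  obtain ⟨Φ, hΦ, hΦi, hΦ0, hΦy⟩ := phi_main l n hn hl0 t e hT j hj β hβ hβn
  obtain ⟨M, x0, hM, hMΦ, hM1, hM0, hMb⟩ := cover p hp hE hs V hV hV1 Φ hΦ
  haveI : CompactSpace (Metric.closedBall (0 : ℂ) 1) :=
    isCompact_iff_compactSpace.mp (isCompact_closedBall 0 1)
  obtain ⟨w, hw, hw0⟩ : ∃ w : Fin 2 → ℂ, w ≠ 0 ∧ Matrix.of (Φ x0) *ᵥ w = w := by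
    by_contra hcon
    push Not at hcon
    apply hΦ0 x0
    have h1 : ∀ v : Fin 2 → ℂ, Matrix.of (Φ x0) *ᵥ v = 0 := by
      intro v
      by_contra hv
      apply hcon _ hv
      rw [Matrix.mulVec_mulVec, hΦi]
    ext a b
    have h2 := congrFun (h1 (Pi.single b 1)) a
    rw [Matrix.mulVec_single_one] at h2
    exact h2
  obtain ⟨f, hf, hf0, hf1, hfc⟩ := transport M hM
    (fun z => by obtain ⟨x, hx⟩ := hMΦ z; rw [hx]; exact hΦi x) w hw
    (fun x => by rw [hM0]; exact hw0)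
  refine core n hn (fun k => l j (e k)) γ hγ hγn ?_ hδ R hR hRn hR1 f hf hf0 ?_ ?_
  · intro s h0 hs0 hsum
    apply hT.avoid j hj s h0 hs0
    rw [map_sum]
    rw [← hsum]
    refine Finset.sum_congr rfl fun a _ => ?_
    rw [map_smul, smul_eq_mul]
  · intro x y hx hy
    exact hfc x y (hMb x y hx hy)
  · intro x
    have h1 := hf1 x
    rw [hM1, hΦy (V x) (Y x) (hY x) (hVY x)] at h1
    have h2 : Xc t j β (Y x) = ![γ 0 * rho n (vv x 0), γ 1 * rho n (vv x 1),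
        γ 2 * rho n (vv x 2), R x] := by
      rw [Xc, hYt, hYt, hYt, hYj]
    rw [h2] at h1
    exact h1

end Pool.Agent.H.MP_02294b_ag
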