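import Mathlib

/-!
# MP_02294b : the function `rho`
-/

open Complex

namespace Pool.Agent.H.MP_02294b_ag

/-- `ρ(a) = a` for `a ≥ 0` and `ζ |a|` for `a ≤ 0`, `ζ = exp(2πi/n)`. -/
noncomputable def rho (n : ℕ) (a : ℝ) : ℂ :=
  ((max a 0 : ℝ) : ℂ) + exp (2 * Real.pi * I / n) * ((max (-a) 0 : ℝ) : ℂ)

/-- `α = exp(-πi/n)`. -/
noncomputable def alp (n : ℕ) : ℂ := exp (-(Real.pi * I / n))

/-- The map from the closed unit disc to `R^3 - 0` which wraps the disc around the sphere; the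
boundary circle goes to `(0, 0, 1)`. -/
noncomputable def vv (x : ℂ) : Fin 3 → ℝ := ![(1 - ‖x‖) * x.re, (1 - ‖x‖) * x.im, 2 * ‖x‖ - 1]

theorem vv_ne (x : ℂ) : vv x ≠ 0 := by
  intro h
  have h0 : (1 - ‖x‖) * x.re = 0 := congrFun h 0
  have h1 : (1 - ‖x‖) * x.im = 0 := congrFun h 1
  have h2 : 2 * ‖x‖ - 1 = 0 := congrFun h 2
  have hn : ‖x‖ = 1 / 2 := by linarith
  rw [hn] at h0 h1
  have hx : x = 0 := Complex.ext (by simpa using (by linarith : x.re = 0))
    (by simpa using (by linarith : x.im = 0))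
  rw [hx, norm_zero] at hn
  norm_num at hn

theorem zeta_pow (n : ℕ) (hn : 1 ≤ n) : exp (2 * Real.pi * I / n) ^ n = 1 := by
  have hn' : (n : ℂ) ≠ 0 := by exact_mod_cast (by omega : n ≠ 0)
  rw [← exp_nat_mul, mul_div_cancel₀ _ hn', exp_two_pi_mul_I]

theorem rho_nonneg (n : ℕ) (a : ℝ) (ha : 0 ≤ a) : rho n a = (a : ℂ) := by
  rw [rho, max_eq_left ha, max_eq_right (by linarith), ofReal_zero, mul_zero, add_zero]

theorem rho_nonpos (n : ℕ) (a : ℝ) (ha : a ≤ 0) :
    rho n a = exp (2 * Real.pi * I / n) * ((|a| : ℝ) : ℂ) := by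
  rw [rho, max_eq_right ha, max_eq_left (by linarith), ofReal_zero, zero_add, abs_of_nonpos ha]

/-- `ρ(a)^n = |a|^n`. -/
theorem rho_pow (n : ℕ) (hn : 1 ≤ n) (a : ℝ) : rho n a ^ n = ((|a| ^ n : ℝ) : ℂ) := by
  rcases le_total 0 a with ha | ha
  · rw [rho_nonneg n a ha, abs_of_nonneg ha, ofReal_pow]
  · rw [rho_nonpos n a ha, mul_pow, zeta_pow n hn, one_mul, ofReal_pow]

theorem rho_cont (n : ℕ) : Continuous (rho n) := by
  unfold rho
  fun_prop

theorem rho_zero (n : ℕ) : rho n 0 = 0 := by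
  rw [rho_nonneg n 0 le_rfl, ofReal_zero]

theorem rho_one (n : ℕ) : rho n 1 = 1 := by
  rw [rho_nonneg n 1 zero_le_one, ofReal_one]

theorem rho_eq_zero (n : ℕ) (hn : 1 ≤ n) (a : ℝ) : rho n a = 0 ↔ a = 0 := by
  constructor
  · intro h
    have h1 := rho_pow n hn a
    rw [h, zero_pow (by omega)] at h1
    have h2 : |a| ^ n = 0 := by exact_mod_cast h1.symm
    exact abs_eq_zero.mp (pow_eq_zero_iff (by omega) |>.mp h2)
  · rintro rfl
    exact rho_zero n

theorem vv_cont : Continuous vv := by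
  unfold vv
  refine continuous_pi fun k => ?_
  fin_cases k
  · simp only [Fin.zero_eta, Matrix.cons_val_zero]
    exact (continuous_const.sub continuous_norm).mul Complex.continuous_re
  · simp only [Fin.mk_one, Matrix.cons_val_one]
    exact (continuous_const.sub continuous_norm).mul Complex.continuous_im
  · exact (continuous_const.mul continuous_norm).sub continuous_const

theorem vv_boundary (x : ℂ) (hx : ‖x‖ = 1) : vv x = ![0, 0, 1] := by
  rw [vv, hx]
  norm_num

end Pool.Agent.H.MP_02294b_ag
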