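import Mathlib

/-!
# MP_02294b : continuous roots on a half plane
-/

open Complex ComplexConjugate

namespace Pool.Agent.H.MP_02294b_ag

/-- The half plane `Re (w conj u) > 0`. -/
def Half (u : ℂ) : Set ℂ := {w | 0 < (w * conj u).re}

/-- If no nonzero combination of `c 0, c 1, c 2` with nonnegative coefficients vanishes, then the
`c a` are in an open half plane: the convex hull of the `c a` is compact, convex and does not
contain `0`; `u` is its point of least norm (or use a separation theorem). -/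
theorem exists_half (c : Fin 3 → ℂ)
    (hc : ∀ s : Fin 3 → ℝ, (∀ a, 0 ≤ s a) → s ≠ 0 → ∑ a, (s a : ℂ) * c a ≠ 0) :
    ∃ u : ℂ, u ≠ 0 ∧ ∀ a, c a ∈ Half u := by
  classical
  set K : Set ℂ := (fun s : Fin 3 → ℝ => ∑ a, (s a : ℂ) * c a) '' stdSimplex ℝ (Fin 3) with hK
  have hcont : Continuous (fun s : Fin 3 → ℝ => ∑ a, (s a : ℂ) * c a) := by fun_prop
  have hKc : IsCompact K := (isCompact_stdSimplex ℝ (Fin 3)).image hcont
  have hKx : Convex ℝ K := by
    rintro _ ⟨s, hs, rfl⟩ _ ⟨t, ht, rfl⟩ a b ha hb hab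
    refine ⟨a • s + b • t, convex_stdSimplex ℝ (Fin 3) hs ht ha hb hab, ?_⟩
    simp only [Pi.add_apply, Pi.smul_apply, smul_eq_mul, real_smul, Finset.mul_sum]
    rw [← Finset.sum_add_distrib]
    refine Finset.sum_congr rfl fun i _ => ?_
    push_cast
    ring
  have hmem : ∀ a, c a ∈ K := by
    intro a
    refine ⟨Pi.single a 1, single_mem_stdSimplex ℝ a, ?_⟩
    simp only
    rw [Finset.sum_eq_single a]
    · simp
    · intro b _ hb
      simp [hb]
    · simp
  obtain ⟨u, hu, hmin⟩ := exists_norm_eq_iInf_of_complete_convex ⟨_, hmem 0⟩ hKc.isComplete hKx 0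
  have hin := (norm_eq_iInf_iff_real_inner_le_zero hKx hu).1 hmin
  have hu0 : u ≠ 0 := by
    rintro rfl
    obtain ⟨s, hs, h0⟩ := hu
    refine hc s (fun a => hs.1 a) ?_ h0
    intro h1
    have := hs.2
    rw [h1] at this
    simp at this
  refine ⟨u, hu0, fun a => ?_⟩
  have h1 := hin (c a) (hmem a)
  have h2 : 0 < normSq u := normSq_pos.2 hu0
  simp only [Half, Set.mem_ofPred_eq]
  rw [Complex.inner] at h1
  simp only [zero_sub, map_neg, neg_re, neg_im, mul_re, conj_re, conj_im, sub_re, sub_im,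
    normSq_apply] at h1 h2 ⊢
  nlinarith


/-- Nonnegative nonzero combinations of points of a half plane. -/
theorem half_comb (u : ℂ) (c : Fin 3 → ℂ) (hc : ∀ a, c a ∈ Half u) (s : Fin 3 → ℝ)
    (h0 : ∀ a, 0 ≤ s a) (hs : s ≠ 0) : ∑ a, (s a : ℂ) * c a ∈ Half u := by
  simp only [Half, Set.mem_ofPred_eq] at hc ⊢
  rw [Finset.sum_mul, Complex.re_sum]
  have h1 : ∀ a, ((s a : ℂ) * c a * conj u).re = s a * (c a * conj u).re := by
    intro a
    rw [mul_assoc, Complex.re_ofReal_mul]
  rw [Finset.sum_congr rfl fun a _ => h1 a]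
  obtain ⟨a, ha⟩ : ∃ a, s a ≠ 0 := by
    by_contra hcon
    push Not at hcon
    exact hs (funext hcon)
  refine Finset.sum_pos' (fun i _ => mul_nonneg (h0 i) (hc i).le) ⟨a, Finset.mem_univ _, ?_⟩
  exact mul_pos (lt_of_le_of_ne (h0 a) ha.symm) (hc a)


/-- The `n`-th root on the half plane `Half u`: `exp ((log u + log (w / u)) / n)`. -/
noncomputable def rt (n : ℕ) (u w : ℂ) : ℂ := exp ((log u + log (w / u)) / n)

theorem half_div_re {u w : ℂ} (hu : u ≠ 0) (hw : w ∈ Half u) : 0 < (w / u).re := by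
  simp only [Half, Set.mem_ofPred_eq] at hw
  have h2 : 0 < normSq u := normSq_pos.2 hu
  have h3 : w / u = ((normSq u)⁻¹ : ℝ) * (w * conj u) := by
    rw [div_eq_mul_inv, Complex.inv_def]
    ring
  rw [h3, Complex.re_ofReal_mul]
  exact mul_pos (inv_pos.2 h2) hw

theorem rt_pow (n : ℕ) (hn : 1 ≤ n) (u : ℂ) (hu : u ≠ 0) (w : ℂ) (hw : w ∈ Half u) :
    rt n u w ^ n = w := by
  have hn' : (n : ℂ) ≠ 0 := by
    exact_mod_cast (by omega : n ≠ 0)
  have hwu : w / u ≠ 0 := by
    intro h
    have := half_div_re hu hw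
    rw [h] at this
    simp at this
  unfold rt
  rw [← Complex.exp_nat_mul, mul_div_cancel₀ _ hn', Complex.exp_add, Complex.exp_log hu,
    Complex.exp_log hwu]
  field_simp


/-- `w / u = w conj u / |u|^2` has positive real part, so it is in the slit plane. -/
theorem rt_cont (n : ℕ) (u : ℂ) (hu : u ≠ 0) : ContinuousOn (rt n u) (Half u) := by
  unfold rt
  apply ContinuousOn.cexp
  apply ContinuousOn.div_const
  apply ContinuousOn.add continuousOn_const
  apply ContinuousOn.clog
  · exact continuousOn_id.div_const u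
  · intro w hw
    exact Or.inl (half_div_re hu hw)


/-- The quotient of two roots: `rt w' / rt w = exp ((log (w'/u) - log (w/u)) / n)`, and both
arguments are in `(-π/2, π/2)`. -/
theorem rt_div (n : ℕ) (hn : 1 ≤ n) (u : ℂ) (hu : u ≠ 0) (w w' : ℂ) (hw : w ∈ Half u)
    (hw' : w' ∈ Half u) :
    ∃ δ r : ℝ, |δ| < Real.pi / n ∧ 0 < r ∧ rt n u w' / rt n u w = r * exp (δ * I) := by
  have hn' : (0 : ℝ) < n := by exact_mod_cast hn
  set z : ℂ := (log (w' / u) - log (w / u)) / n with hz
  have hq : rt n u w' / rt n u w = exp z := by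
    unfold rt
    rw [← Complex.exp_sub, hz]
    congr 1
    ring
  have ha : |arg (w / u)| < Real.pi / 2 :=
    Complex.abs_arg_lt_pi_div_two_iff.2 (Or.inl (half_div_re hu hw))
  have ha' : |arg (w' / u)| < Real.pi / 2 :=
    Complex.abs_arg_lt_pi_div_two_iff.2 (Or.inl (half_div_re hu hw'))
  have him : z.im = (arg (w' / u) - arg (w / u)) / n := by
    rw [hz, Complex.div_natCast_im, Complex.sub_im, Complex.log_im, Complex.log_im]
  refine ⟨z.im, Real.exp z.re, ?_, Real.exp_pos _, ?_⟩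
  · rw [him, abs_div, Nat.abs_cast, div_lt_div_iff_of_pos_right hn']
    rw [abs_lt] at ha ha' ⊢
    constructor <;> linarith [ha.1, ha.2, ha'.1, ha'.2]
  · rw [hq]
    conv_lhs => rw [← Complex.re_add_im z]
    rw [Complex.exp_add]
    push_cast
    rfl


end Pool.Agent.H.MP_02294b_ag
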