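import Pool.Agent.H.MP_02294b_ag.Def
import Pool.Agent.H.MP_02294b_ag.Root
import Pool.Agent.H.MP_02294b_ag.Rho

/-!
# MP_02294b : the sphere over the doubled triangle
-/

open Complex
open scoped LinearAlgebra.Projectivization

namespace Pool.Agent.H.MP_02294b_ag

/-- The point of the closed triangle under the sphere. -/
noncomputable def xiP (n : ℕ) (e : Fin 3 → (Fin 3 → ℂ)) (x : ℂ) : Fin 3 → ℂ :=
  ∑ k, ((|vv x k| ^ n : ℝ) : ℂ) • e k

theorem xiP_val (n : ℕ) (e : Fin 3 → (Fin 3 → ℂ)) (x : ℂ) (f : Form) :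
    f (xiP n e x) = ∑ k, ((|vv x k| ^ n : ℝ) : ℂ) * f (e k) := by
  rw [xiP, map_sum]
  refine Finset.sum_congr rfl fun k _ => ?_
  rw [map_smul, smul_eq_mul]

theorem xiP_cont (n : ℕ) (e : Fin 3 → (Fin 3 → ℂ)) (f : Form) :
    Continuous fun x : ℂ => f (xiP n e x) := by
  simp only [xiP_val]
  refine continuous_finsetSum _ fun k _ => ?_
  have h1 : Continuous fun x : ℂ => vv x k := (continuous_apply k).comp vv_cont
  exact (continuous_ofReal.comp (h1.abs.pow n)).mul continuous_const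

theorem form_ne_zero (f : Form) (hf : f ≠ 0) (e : Fin 3 → (Fin 3 → ℂ))
    (he : LinearIndependent ℂ e) (k : Fin 3) (h : ∀ b, k ≠ b → f (e b) = 0) : f (e k) ≠ 0 := by
  intro h0
  apply hf
  let b := basisOfLinearIndependentOfCardEqFinrank he (by simp)
  refine b.ext fun i => ?_
  have hb : b i = e i := by
    simp [b]
  rw [hb, LinearMap.zero_apply]
  by_cases hi : k = i
  · rw [← hi]
    exact h0
  · exact h i hi

theorem pow_abs_ne (n : ℕ) (x : ℂ) : (fun k => |vv x k| ^ n : Fin 3 → ℝ) ≠ 0 := by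
  intro h
  apply vv_ne x
  funext k
  have h1 : |vv x k| ^ n = 0 := congrFun h k
  exact abs_eq_zero.mp (eq_zero_of_pow_eq_zero h1)

theorem proj_cont {Z : Type} [TopologicalSpace Z] {S : Type} (f : Z → (S → ℂ)) (hf : Continuous f)
    (h0 : ∀ z, f z ≠ 0) : Continuous fun z => Projectivization.mk ℂ (f z) (h0 z) := by
  have h1 : Continuous fun z => (⟨f z, h0 z⟩ : {v : S → ℂ // v ≠ 0}) := hf.subtype_mk h0
  exact (continuous_coinduced_rng (f := fun v : {v : S → ℂ // v ≠ 0} =>
    Projectivization.mk ℂ v.1 v.2)).comp h1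

/-- The sphere in `HK l n`. With `ξ x = ∑ k, |vv x k|^n • e k` put `Y x (t k) = a_k ρ(vv x k)`,
`a_k ^ n = l (t k) (e k)` (not zero because `l (t k) ≠ 0` and `e` is a basis), and
`Y x i = rt n (u i) (l i (ξ x))` for the `i` which are not in the range of `t`, with `u i` from
`exists_half` for `c a = l i (e a)`. Then `Y x i ^ n = l i (ξ x)`, `Y x i ≠ 0` off the range of `t`,
and `Y x (t k) = 0` iff `vv x k = 0`; at most two of the `vv x k` vanish. So for each `S : MultPt l`
some `Y x i`, `i ∈ S`, is not zero (otherwise `S` is contained in a set of at most two elements) and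
`z_S` is the class of `(Y x i)`, `i ∈ S`. Finally `γ k = rt n (u j) (l j (e k))`,
`β k = γ k / a_k`. -/
theorem exists_V {ι : Type} [Fintype ι] (l : ι → Form) (n : ℕ) (hn : 2 ≤ n)
    (hl0 : ∀ i, l i ≠ 0) (t : Fin 3 → ι) (e : Fin 3 → (Fin 3 → ℂ)) (hT : SimpleTriangle l t e)
    (j : ι) (hj : j ∉ Set.range t) :
    ∃ (β γ : Fin 3 → ℂ) (R : Metric.closedBall (0 : ℂ) 1 → ℂ)
      (Y : Metric.closedBall (0 : ℂ) 1 → ι → ℂ) (hY : ∀ x, Y x ≠ 0)
      (V : Metric.closedBall (0 : ℂ) 1 → HK l n),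
      (∀ k, β k ≠ 0) ∧ (∀ k, β k ^ n = l j (e k) / l (t k) (e k)) ∧
      (∀ k, γ k ≠ 0) ∧ (∀ k, γ k ^ n = l j (e k)) ∧
      (∃ δ r : ℝ, |δ| < Real.pi / n ∧ 0 < r ∧ γ 1 / γ 0 = r * exp (δ * I)) ∧
      Continuous R ∧ (∀ x, R x ^ n = ∑ k, ((|vv x k| ^ n : ℝ) : ℂ) * l j (e k)) ∧
      (∀ x : Metric.closedBall (0 : ℂ) 1, (‖(x : ℂ)‖ = 1 ∨ (x : ℂ) = 0) → R x = γ 2) ∧
      Continuous V ∧
      (∀ x y : Metric.closedBall (0 : ℂ) 1, ‖(x : ℂ)‖ = 1 → ‖(y : ℂ)‖ = 1 → V x = V y) ∧
      (∀ x, (V x).1.1 = Projectivization.mk ℂ (Y x) (hY x)) ∧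
      (∀ x k, β k * Y x (t k) = γ k * rho n (vv x k)) ∧ ∀ x, Y x j = R x := by
  have hn0 : n ≠ 0 := by omega
  have hn1 : 1 ≤ n := by omega
  have hne : ∀ k, l (t k) (e k) ≠ 0 := fun k =>
    form_ne_zero _ (hl0 _) e hT.basis k fun b hb => hT.vertex k b hb
  have ha : ∀ k, ∃ a : ℂ, a ^ n = l (t k) (e k) := fun k =>
    IsAlgClosed.exists_pow_nat_eq _ (by omega)
  choose a ha using ha
  have ha0 : ∀ k, a k ≠ 0 := fun k h => hne k (by rw [← ha k, h, zero_pow hn0])
  -- values of the forms of the triangle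
  have htk : ∀ k x, l (t k) (xiP n e x) = ((|vv x k| ^ n : ℝ) : ℂ) * l (t k) (e k) := by
    intro k x
    rw [xiP_val]
    refine Finset.sum_eq_single_of_mem k (Finset.mem_univ k) fun b _ hb => ?_
    rw [hT.vertex k b (Ne.symm hb), mul_zero]
  -- the other forms
  have havoid : ∀ i, i ∉ Set.range t → ∀ s : Fin 3 → ℝ, (∀ a, 0 ≤ s a) → s ≠ 0 →
      ∑ a, (s a : ℂ) * l i (e a) ≠ 0 := by
    intro i hi s hs hs0 h
    apply hT.avoid i hi s hs hs0
    rw [map_sum, ← h]
    refine Finset.sum_congr rfl fun k _ => ?_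
    rw [map_smul, smul_eq_mul]
  have hhalf : ∀ i, i ∉ Set.range t → ∃ u : ℂ, u ≠ 0 ∧ ∀ a, l i (e a) ∈ Half u :=
    fun i hi => exists_half _ (havoid i hi)
  have hyi : ∀ i, ∃ y : ℂ → ℂ, Continuous y ∧ (∀ x, y x ^ n = l i (xiP n e x)) ∧
      (∀ k, t k = i → ∀ x, y x = a k * rho n (vv x k)) ∧
      (∀ x x', vv x = vv x' → y x = y x') ∧
      (i ∉ Set.range t → ∃ u : ℂ, u ≠ 0 ∧ (∀ a, l i (e a) ∈ Half u) ∧
        ∀ x, y x = rt n u (l i (xiP n e x))) := by
    intro i
    by_cases hi : i ∈ Set.range t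
    · obtain ⟨k, rfl⟩ := hi
      refine ⟨fun x => a k * rho n (vv x k), ?_, ?_, ?_, ?_, ?_⟩
      · exact continuous_const.mul ((rho_cont n).comp ((continuous_apply k).comp vv_cont))
      · intro x
        show (a k * rho n (vv x k)) ^ n = _
        rw [mul_pow, ha, rho_pow n hn1, htk, mul_comm]
      · intro k' hk' x
        rw [hT.inj hk']
      · intro x x' h
        show a k * rho n (vv x k) = a k * rho n (vv x' k)
        rw [h]
      · intro h
        exact absurd ⟨k, rfl⟩ h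
    · obtain ⟨u, hu, hu'⟩ := hhalf i hi
      have hmem : ∀ x, l i (xiP n e x) ∈ Half u := by
        intro x
        rw [xiP_val]
        exact half_comb u _ hu' _ (fun k => by positivity) (pow_abs_ne n x)
      refine ⟨fun x => rt n u (l i (xiP n e x)), ?_, ?_, ?_, ?_, ?_⟩
      · exact (rt_cont n u hu).comp_continuous (xiP_cont n e (l i)) hmem
      · intro x
        exact rt_pow n hn1 u hu _ (hmem x)
      · intro k hk
        exact absurd ⟨k, hk⟩ hi
      · intro x x' h
        show rt n u (l i (xiP n e x)) = rt n u (l i (xiP n e x'))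
        rw [xiP_val, xiP_val, h]
      · intro _
        exact ⟨u, hu, hu', fun x => rfl⟩
  choose y hyc hyn hyt hyv hyu using hyi
  have hyne : ∀ i, i ∉ Set.range t → ∀ x, y i x ≠ 0 := by
    intro i hi x h
    have h1 := hyn i x
    rw [h, zero_pow hn0, xiP_val] at h1
    exact havoid i hi (fun k => |vv x k| ^ n) (fun k => by positivity) (pow_abs_ne n x) h1.symm
  have hY : ∀ x : ℂ, (fun i => y i x) ≠ 0 := by
    intro x h
    exact hyne j hj x (congrFun h j)
  have hYS : ∀ (S : MultPt l) (x : ℂ), (fun i : {i : ι // i ∈ S.1} => y i.1 x) ≠ 0 := by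
    intro S x h
    have h1 : ∀ i ∈ S.1, y i x = 0 := fun i hi => congrFun h ⟨i, hi⟩
    classical
    have h2 : S.1 ⊆ (Finset.univ.filter fun k : Fin 3 => vv x k = 0).image t := by
      intro i hi
      have h3 := h1 i hi
      by_cases hit : i ∈ Set.range t
      · obtain ⟨k, rfl⟩ := hit
        rw [hyt (t k) k rfl x] at h3
        have h4 : rho n (vv x k) = 0 := (mul_eq_zero.1 h3).resolve_left (ha0 k)
        rw [rho_eq_zero n hn1] at h4
        exact Finset.mem_image_of_mem t (Finset.mem_filter.2 ⟨Finset.mem_univ k, h4⟩)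
      · exact absurd h3 (hyne i hit x)
    have h5 : 3 ≤ (Finset.univ.filter fun k : Fin 3 => vv x k = 0).card :=
      S.2.1.trans ((Finset.card_le_card h2).trans Finset.card_image_le)
    have h6 : (Finset.univ.filter fun k : Fin 3 => vv x k = 0) = Finset.univ := by
      refine Finset.eq_of_subset_of_card_le (Finset.filter_subset _ _) ?_
      simpa using h5
    apply vv_ne x
    funext k
    have h7 : k ∈ (Finset.univ.filter fun k : Fin 3 => vv x k = 0) := by
      rw [h6]
      exact Finset.mem_univ k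
    exact (Finset.mem_filter.1 h7).2
  obtain ⟨u, hu, hu', hyj⟩ := hyu j hj
  have hγn : ∀ k, rt n u (l j (e k)) ^ n = l j (e k) := fun k => rt_pow n hn1 u hu _ (hu' k)
  have hljne : ∀ k, l j (e k) ≠ 0 := by
    intro k h
    have h1 := hu' k
    rw [h] at h1
    simp [Half] at h1
  have hγ0 : ∀ k, rt n u (l j (e k)) ≠ 0 := by
    intro k h
    apply hljne k
    rw [← hγn k, h, zero_pow hn0]
  -- the relations
  have hrel : ∀ x : ℂ, (∃ x' : Fin 3 → ℂ, ∀ i,
      (Projectivization.mk ℂ (fun i => y i x) (hY x)).rep i ^ n = l i x') ∧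
      ∀ S : MultPt l, (∃ x' : Fin 3 → ℂ, ∀ i,
        (Projectivization.mk ℂ (fun i : {i : ι // i ∈ S.1} => y i.1 x) (hYS S x)).rep i ^ n
          = l i.1 x') ∧
      ∀ i i' : {i : ι // i ∈ S.1},
        (Projectivization.mk ℂ (fun i => y i x) (hY x)).rep i.1 *
          (Projectivization.mk ℂ (fun i : {i : ι // i ∈ S.1} => y i.1 x) (hYS S x)).rep i' =
        (Projectivization.mk ℂ (fun i => y i x) (hY x)).rep i'.1 *
          (Projectivization.mk ℂ (fun i : {i : ι // i ∈ S.1} => y i.1 x) (hYS S x)).rep i := by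
    intro x
    obtain ⟨c, hc⟩ := Projectivization.exists_smul_eq_mk_rep ℂ (fun i => y i x) (hY x)
    have hc' : ∀ i, (Projectivization.mk ℂ (fun i => y i x) (hY x)).rep i = (c : ℂ) * y i x := by
      intro i
      rw [← hc]
      rfl
    refine ⟨⟨(c : ℂ) ^ n • xiP n e x, fun i => ?_⟩, ?_⟩
    · rw [hc', mul_pow, hyn, map_smul, smul_eq_mul]
    · intro S
      obtain ⟨d, hd⟩ := Projectivization.exists_smul_eq_mk_rep ℂ
        (fun i : {i : ι // i ∈ S.1} => y i.1 x) (hYS S x)
      have hd' : ∀ i, (Projectivization.mk ℂ (fun i : {i : ι // i ∈ S.1} => y i.1 x)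
          (hYS S x)).rep i = (d : ℂ) * y i.1 x := by
        intro i
        rw [← hd]
        rfl
      refine ⟨⟨(d : ℂ) ^ n • xiP n e x, fun i => ?_⟩, ?_⟩
      · rw [hd', mul_pow, hyn, map_smul, smul_eq_mul]
      · intro i i'
        rw [hc', hc', hd', hd']
        ring
  have hvv0 : vv 0 = ![0, 0, -1] := by
    rw [vv]
    norm_num
  let V : Metric.closedBall (0 : ℂ) 1 → HK l n := fun x =>
    ⟨(Projectivization.mk ℂ (fun i => y i x) (hY x),
      fun S => Projectivization.mk ℂ (fun i : {i : ι // i ∈ S.1} => y i.1 x) (hYS S x)), hrel x⟩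
  refine ⟨fun k => rt n u (l j (e k)) / a k, fun k => rt n u (l j (e k)), fun x => y j x,
    fun x i => y i x, fun x => hY x, V, ?_, ?_, ?_, ?_, ?_, ?_, ?_, ?_, ?_, ?_, ?_, ?_, ?_⟩
  · intro k
    exact div_ne_zero (hγ0 k) (ha0 k)
  · intro k
    show (rt n u (l j (e k)) / a k) ^ n = _
    rw [div_pow, hγn, ha]
  · exact hγ0
  · exact hγn
  · exact rt_div n hn1 u hu _ _ (hu' 0) (hu' 1)
  · exact (hyc j).comp continuous_subtype_val
  · intro x
    show y j x ^ n = _
    rw [hyn, xiP_val]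
  · intro x hx
    show y j x = rt n u (l j (e 2))
    rw [hyj, xiP_val, Fin.sum_univ_three]
    have hz : ((0 : ℝ)) ^ n = 0 := zero_pow hn0
    rcases hx with hx | hx
    · rw [vv_boundary _ hx]
      simp [hn0]
    · rw [hx, hvv0]
      simp [hn0]
  · refine Continuous.subtype_mk (Continuous.prodMk ?_ (continuous_pi fun S => ?_)) _
    · exact proj_cont (fun (x : Metric.closedBall (0 : ℂ) 1) i => y i x)
        (continuous_pi fun i => (hyc i).comp continuous_subtype_val) (fun x => hY x)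
    · exact proj_cont (fun (x : Metric.closedBall (0 : ℂ) 1) (i : {i : ι // i ∈ S.1}) => y i.1 x)
        (continuous_pi fun i => (hyc i.1).comp continuous_subtype_val) (fun x => hYS S x)
  · intro x x' hx hx'
    have h1 : ∀ i, y i x = y i x' := fun i => hyv i x x' (by
      rw [vv_boundary _ hx, vv_boundary _ hx'])
    refine Subtype.ext (Prod.ext ?_ (funext fun S => ?_))
    · show Projectivization.mk ℂ (fun i => y i x) (hY x) =
        Projectivization.mk ℂ (fun i => y i x') (hY x')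
      simp only [h1]
    · show Projectivization.mk ℂ (fun i : {i : ι // i ∈ S.1} => y i.1 x) (hYS S x) =
        Projectivization.mk ℂ (fun i : {i : ι // i ∈ S.1} => y i.1 x') (hYS S x')
      simp only [h1]
  · intro x
    rfl
  · intro x k
    show rt n u (l j (e k)) / a k * y (t k) x = rt n u (l j (e k)) * rho n (vv x k)
    rw [hyt (t k) k rfl x]
    have := ha0 k
    field_simp
  · intro x
    rfl

end Pool.Agent.H.MP_02294b_ag
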